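import Pool.Agent.W5h87.ZSlow.Incl

/-!
# Complex coefficients
-/

set_option autoImplicit false
set_option linter.unusedSectionVars false

open scoped Matrix Pointwise

namespace Pool.Agent.W5h87.ZSlow

open Pool.Agent.H919R4.ZS Pool.Agent.TH38.ZT MonoidAlgebra

noncomputable section

/-- complex coefficients -/
def cx (Γ : Type) [Group Γ] : MonoidAlgebra ℤ Γ →+* MonoidAlgebra ℂ Γ :=
  MonoidAlgebra.mapRingHom Γ (Int.castRingHom ℂ)

@[simp] lemma cx_single {Γ : Type} [Group Γ] (g : Γ) (c : ℤ) :
    cx Γ (single g c) = single g (c : ℂ) := by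
  simp [cx]

variable {G : Type} [Group G] {H : Subgroup G}

/-- the inclusion of the complex group rings -/
def incC (H : Subgroup G) : MonoidAlgebra ℂ H →+* MonoidAlgebra ℂ G :=
  MonoidAlgebra.mapDomainRingHom ℂ H.subtype

@[simp] lemma incC_single (h : H) (c : ℂ) : incC H (single h c) = single (h : G) c := by
  simp [incC]

lemma incC_cx (a : MonoidAlgebra ℤ H) : incC H (cx H a) = cx G (inc H a) := by
  refine MonoidAlgebra.induction_linear a ?_ ?_ ?_
  · simp
  · intro x y hx hy
    simp only [map_add, hx, hy]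
  · intro h c
    simp

lemma incC_smul (c : ℂ) (a : MonoidAlgebra ℂ H) : incC H (c • a) = c • incC H a := by
  refine MonoidAlgebra.induction_linear a ?_ ?_ ?_
  · simp
  · intro x y hx hy
    rw [smul_add, map_add, map_add, hx, hy, smul_add]
  · intro h d
    rw [smul_single, incC_single, incC_single, smul_single]

variable {X : FinRes G} {Y : FinRes H}

/-- the value of the chain map on a translate of a basis vector -/
def bv (v : ChainMap X Y) (i : ℕ) (j : Fin (X.n i)) (g : G) : Fin (Y.n i) → MonoidAlgebra ℤ H :=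
  v.toFun i (Pi.single j (single g 1))

/-- the component of the complexification of the chain map -/
def vj (v : ChainMap X Y) (i : ℕ) (j : Fin (X.n i)) :
    MonoidAlgebra ℂ G →ₗ[ℂ] (Fin (Y.n i) → MonoidAlgebra ℂ H) where
  toFun a := Finsupp.linearCombination ℂ
    (fun g => (fun k => cx H (bv v i j g k) : Fin (Y.n i) → MonoidAlgebra ℂ H)) a.coeff
  map_add' a b := by rw [coeff_add, map_add]
  map_smul' c a := by rw [coeff_smul, map_smul, RingHom.id_apply]

lemma vj_single (v : ChainMap X Y) (i : ℕ) (j : Fin (X.n i)) (g : G) (c : ℂ) :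
    vj v i j (single g c) = c • fun k => cx H (bv v i j g k) := by
  change Finsupp.linearCombination ℂ _ (single g c : MonoidAlgebra ℂ G).coeff = _
  rw [coeff_single, Finsupp.linearCombination_single]

/-- the complexification of the chain map -/
def vC (v : ChainMap X Y) (i : ℕ) :
    (Fin (X.n i) → MonoidAlgebra ℂ G) →ₗ[ℂ] (Fin (Y.n i) → MonoidAlgebra ℂ H) :=
  ∑ j, (vj v i j).comp (LinearMap.proj j)

lemma vC_apply (v : ChainMap X Y) (i : ℕ) (x : Fin (X.n i) → MonoidAlgebra ℂ G) :
    vC v i x = ∑ j, vj v i j (x j) := by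
  simp [vC]

lemma vC_single (v : ChainMap X Y) (i : ℕ) (j : Fin (X.n i)) (a : MonoidAlgebra ℂ G) :
    vC v i (Pi.single j a) = vj v i j a := by
  rw [vC_apply, Finset.sum_eq_single j]
  · rw [Pi.single_eq_same]
  · intro k _ hk
    rw [Pi.single_eq_of_ne hk, map_zero]
  · simp

/-- additive maps which agree on the elementary vectors are equal -/
lemma add_ext {R : Type*} [Semiring R] {n : ℕ} {A : Type*} [AddCommMonoid A]
    (f f' : (Fin n → MonoidAlgebra R G) →+ A)
    (h : ∀ j g (c : R), f (Pi.single j (single g c)) = f' (Pi.single j (single g c))) : f = f' := by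
  refine AddMonoidHom.functions_ext' (M := fun _ => MonoidAlgebra R G) A f f' fun j => ?_
  refine MonoidAlgebra.addMonoidHom_ext fun g c => ?_
  exact h j g c

/-- the complexification on integral vectors -/
lemma vC_cx (v : ChainMap X Y) (i : ℕ) (x : Fin (X.n i) → MonoidAlgebra ℤ G) :
    vC v i (fun j => cx G (x j)) = fun k => cx H (v.toFun i x k) := by
  let F1 : (Fin (X.n i) → MonoidAlgebra ℤ G) →+ (Fin (Y.n i) → MonoidAlgebra ℂ H) :=
    { toFun := fun x => vC v i (fun j => cx G (x j))
      map_zero' := by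
        have : (fun j : Fin (X.n i) => cx G ((0 : Fin (X.n i) → MonoidAlgebra ℤ G) j)) = 0 := by
          funext j; simp
        rw [this, map_zero]
      map_add' := fun x y => by
        rw [← map_add]
        congr 1
        funext j
        simp }
  let F2 : (Fin (X.n i) → MonoidAlgebra ℤ G) →+ (Fin (Y.n i) → MonoidAlgebra ℂ H) :=
    { toFun := fun x => fun k => cx H (v.toFun i x k)
      map_zero' := by funext k; simp
      map_add' := fun x y => by funext k; simp }
  have h : F1 = F2 := by
    refine add_ext _ _ fun j g c => ?_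
    change vC v i (fun j' => cx G ((Pi.single j (single g c) : Fin (X.n i) → MonoidAlgebra ℤ G) j')) =
      fun k => cx H (v.toFun i (Pi.single j (single g c)) k)
    have h1 : (fun j' => cx G ((Pi.single j (single g c) : Fin (X.n i) → MonoidAlgebra ℤ G) j')) =
        Pi.single j (single g (c : ℂ)) := by
      funext j'
      by_cases hj : j' = j
      · subst hj; simp
      · simp [Pi.single_eq_of_ne hj]
    have h2 : (Pi.single j (single g c) : Fin (X.n i) → MonoidAlgebra ℤ G) =
        c • Pi.single j (single g 1) := by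
      rw [← Pi.single_smul, smul_single, smul_eq_mul, mul_one]
    rw [h1, vC_single, vj_single, h2, map_zsmul]
    funext k
    change (c : ℂ) • cx H (bv v i j g k) = cx H (c • bv v i j g k)
    rw [map_zsmul, Int.cast_smul_eq_zsmul]
  exact congrArg (fun F => F x) h

/-- linearity over the complex group ring of `H` -/
lemma vC_smul (v : ChainMap X Y) (i : ℕ) (b : MonoidAlgebra ℂ H)
    (x : Fin (X.n i) → MonoidAlgebra ℂ G) : vC v i (incC H b • x) = b • vC v i x := by
  -- first for the elements of `H`
  have key : ∀ (h : H) (x : Fin (X.n i) → MonoidAlgebra ℂ G),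
      vC v i ((single (h : G) (1 : ℂ) : MonoidAlgebra ℂ G) • x) =
        (single h (1 : ℂ) : MonoidAlgebra ℂ H) • vC v i x := by
    intro h x
    let F1 : (Fin (X.n i) → MonoidAlgebra ℂ G) →+ (Fin (Y.n i) → MonoidAlgebra ℂ H) :=
      { toFun := fun x => vC v i ((single (h : G) (1 : ℂ) : MonoidAlgebra ℂ G) • x)
        map_zero' := by rw [smul_zero, map_zero]
        map_add' := fun x y => by rw [smul_add, map_add] }
    let F2 : (Fin (X.n i) → MonoidAlgebra ℂ G) →+ (Fin (Y.n i) → MonoidAlgebra ℂ H) :=
      { toFun := fun x => (single h (1 : ℂ) : MonoidAlgebra ℂ H) • vC v i x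
        map_zero' := by rw [map_zero, smul_zero]
        map_add' := fun x y => by rw [map_add, smul_add] }
    have hF : F1 = F2 := by
      refine add_ext _ _ fun j g c => ?_
      change vC v i ((single (h : G) (1 : ℂ) : MonoidAlgebra ℂ G) •
          (Pi.single j (single g c) : Fin (X.n i) → MonoidAlgebra ℂ G)) =
        (single h (1 : ℂ) : MonoidAlgebra ℂ H) • vC v i (Pi.single j (single g c))
      rw [← Pi.single_smul, smul_eq_mul, single_mul_single, one_mul, vC_single, vC_single,
        vj_single, vj_single]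
      have h1 : bv v i j ((h : G) * g) = (single h 1 : MonoidAlgebra ℤ H) • bv v i j g := by
        rw [bv, bv, ← v.linear, ← Pi.single_smul, smul_eq_mul, single_mul_single, one_mul]
      rw [h1]
      funext k
      change c • cx H ((single h 1 : MonoidAlgebra ℤ H) * bv v i j g k) =
        (single h (1 : ℂ) : MonoidAlgebra ℂ H) * (c • cx H (bv v i j g k))
      rw [map_mul, cx_single, mul_smul_comm]
      simp
    exact congrArg (fun F => F x) hF
  refine MonoidAlgebra.induction_linear b ?_ ?_ ?_
  · rw [map_zero, zero_smul, zero_smul, map_zero]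
  · intro a b ha hb
    rw [map_add, add_smul, add_smul, map_add, ha, hb]
  · intro h c
    have h1 : ∀ {Γ : Type} [Group Γ] (g : Γ), (single g c : MonoidAlgebra ℂ Γ) =
        c • single g 1 := by
      intro Γ _ g
      rw [smul_single, smul_eq_mul, mul_one]
    rw [incC_single, h1, h1, smul_assoc, smul_assoc, map_smul, key]

/-- the complexification is a chain map -/
lemma vC_chain (v : ChainMap X Y) (i : ℕ) (x : Fin (X.n (i + 1)) → MonoidAlgebra ℂ G) :
    vC v i (x ᵥ* (X.d i).map (cx G)) = vC v (i + 1) x ᵥ* (Y.d i).map (cx H) := by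
  let F1 : (Fin (X.n (i + 1)) → MonoidAlgebra ℂ G) →+ (Fin (Y.n i) → MonoidAlgebra ℂ H) :=
    { toFun := fun x => vC v i (x ᵥ* (X.d i).map (cx G))
      map_zero' := by rw [Matrix.zero_vecMul, map_zero]
      map_add' := fun x y => by rw [Matrix.add_vecMul, map_add] }
  let F2 : (Fin (X.n (i + 1)) → MonoidAlgebra ℂ G) →+ (Fin (Y.n i) → MonoidAlgebra ℂ H) :=
    { toFun := fun x => vC v (i + 1) x ᵥ* (Y.d i).map (cx H)
      map_zero' := by rw [map_zero, Matrix.zero_vecMul]
      map_add' := fun x y => by rw [map_add, Matrix.add_vecMul] }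
  have hF : F1 = F2 := by
    refine add_ext _ _ fun j g c => ?_
    change vC v i ((Pi.single j (single g c) : Fin (X.n (i + 1)) → MonoidAlgebra ℂ G) ᵥ*
        (X.d i).map (cx G)) =
      vC v (i + 1) (Pi.single j (single g c)) ᵥ* (Y.d i).map (cx H)
    have h0 : (Pi.single j (single g c) : Fin (X.n (i + 1)) → MonoidAlgebra ℂ G) =
        c • fun j' => cx G ((Pi.single j (single g 1) : Fin (X.n (i + 1)) → MonoidAlgebra ℤ G) j') := by
      funext j'
      by_cases hj : j' = j
      · subst hj; simp
      · simp [Pi.single_eq_of_ne hj]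
    have h1 : ∀ {m m' : ℕ} {Γ : Type} [Group Γ] (y : Fin m → MonoidAlgebra ℤ Γ)
        (M : Matrix (Fin m) (Fin m') (MonoidAlgebra ℤ Γ)),
        (fun k => cx Γ (y k)) ᵥ* M.map (cx Γ) = fun k => cx Γ ((y ᵥ* M) k) := by
      intro m m' Γ _ y M
      funext k
      simp [Matrix.vecMul, dotProduct]
    rw [h0, Matrix.smul_vecMul, map_smul, h1, vC_cx, v.chain, map_smul, vC_cx, Matrix.smul_vecMul,
      h1]
  exact congrArg (fun F => F x) hF

end

end Pool.Agent.W5h87.ZSlow
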