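import Pool.Agent.TH38.ZT.Trace

/-!
# Slow retractions to a subgroup: definitions

`X : FinRes G` is a finite free resolution of the trivial `ℤ[G]`-module `ℤ`, for example the cellular
chain complex of the universal cover `M̃` of a finite aspherical CW complex `M` with `π₁(M) = G`; for a
subgroup `H` of `G` the covering of `M` with the fundamental group `H` is `H \ M̃`.
-/

set_option autoImplicit false

open scoped Matrix Pointwise

namespace Pool.Agent.W5h87.ZSlow

open Pool.Agent.H919R4.ZS

/-- The number of the right cosets `H g` of `H` which meet the set `A`. -/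
noncomputable def cosets {G : Type} [Group G] (H : Subgroup G) (A : Set G) : ℕ :=
  (Quotient.mk (QuotientGroup.rightRel H) '' A).ncard

/-- `f n` grows more slowly than every exponential function of `n`. -/
def Subexp (f : ℕ → ℝ) : Prop :=
  ∀ δ : ℝ, 0 < δ → ∃ C : ℝ, ∀ n : ℕ, f n ≤ C * Real.exp (δ * n)

/-- The Schreier graphs of `H \ G` have subexponential growth: for every finite subset `S` of `G`, the
number of the cosets `H g` which contain a product of `n` elements of `S` grows subexponentially in `n`.
(If `H` is the fundamental group of a covering `M'` of a compact manifold `M` with the fundamental group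
`G`, then this means that the volume of the balls of radius `n` in `M'` grows subexponentially.) -/
def SubexpCosets {G : Type} [Group G] (H : Subgroup G) : Prop :=
  ∀ S : Finset G, Subexp fun n => (cosets H ((S : Set G) ^ n) : ℝ)

/-- The `ℓ¹`-norm `∑ |a_g|` of an element `∑ a_g g` of an integral group ring. -/
noncomputable def l1 {Γ : Type} (a : MonoidAlgebra ℤ Γ) : ℝ :=
  ∑ g ∈ a.coeff.support, |(a.coeff g : ℝ)|

/-- A chain map over the identity of `ℤ` from the resolution `X` of `ℤ` over `ℤ[G]` to the resolution
`Y` of `ℤ` over `ℤ[H]`, linear over `ℤ[H]`: for example the chain map which is given by an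
`H`-equivariant cellular map from the universal cover of `M` to the universal cover of `F`, where `M`
and `F` are finite aspherical complexes with the fundamental groups `G` and `H`, that is, by a homotopy
equivalence from the covering of `M` with the fundamental group `H` to `F`. -/
structure ChainMap {G : Type} [Group G] {H : Subgroup G} (X : FinRes G) (Y : FinRes H) where
  /-- the components of the chain map -/
  toFun : ∀ i, (Fin (X.n i) → MonoidAlgebra ℤ G) →+ (Fin (Y.n i) → MonoidAlgebra ℤ H)
  /-- linearity over the group ring of `H` -/
  linear : ∀ i (h : H) (x : Fin (X.n i) → MonoidAlgebra ℤ G),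
    toFun i ((MonoidAlgebra.single (h : G) 1 : MonoidAlgebra ℤ G) • x) =
      (MonoidAlgebra.single h 1 : MonoidAlgebra ℤ H) • toFun i x
  /-- compatibility with the differentials -/
  chain : ∀ i (x : Fin (X.n (i + 1)) → MonoidAlgebra ℤ G),
    toFun i (x ᵥ* X.d i) = toFun (i + 1) x ᵥ* Y.d i
  /-- compatibility with the augmentations -/
  aug : ∀ x : Fin (X.n 0) → MonoidAlgebra ℤ G,
    ∑ j, augm H (toFun 0 x j) * Y.aug j = ∑ j, augm G (x j) * X.aug j

/-- The chain map is slow in degree `i`: for every finite subset `S` of `G`, the `ℓ¹`-norms of the
values of the chain map on the translates `g · e_j` of the basis vectors, `g` a product of `n` elements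
of `S`, grow subexponentially in `n`. (These norms depend only on the coset `H g`.) -/
def ChainMap.Slow {G : Type} [Group G] {H : Subgroup G} {X : FinRes G} {Y : FinRes H}
    (v : ChainMap X Y) (i : ℕ) : Prop :=
  ∀ (S : Finset G) (δ : ℝ), 0 < δ → ∃ C : ℝ, ∀ n : ℕ, ∀ g ∈ (S : Set G) ^ n, ∀ j k,
    l1 (v.toFun i (Pi.single j (MonoidAlgebra.single g 1)) k) ≤ C * Real.exp (δ * n)

end Pool.Agent.W5h87.ZSlow
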