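import Pool.Agent.W5h87.ZSlow.Neu

/-!
# The estimates
-/

set_option autoImplicit false
set_option linter.unusedSectionVars false

open scoped Matrix Pointwise ENNReal NNReal

namespace Pool.Agent.W5h87.ZSlow

open Pool.Agent.H919R4.ZS Pool.Agent.TH38.ZT MonoidAlgebra

noncomputable section

variable {G : Type} [Group G] {H : Subgroup G}

/-! ### norms of matrices -/

lemma norm_Lam_one_le {Γ : Type} [Group Γ] : ‖Lam Γ 1‖ ≤ 1 := by
  have h : (1 : MonoidAlgebra ℂ Γ) = single 1 1 := rfl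
  rw [h]
  refine (norm_Lam_single _ _).trans ?_
  rw [norm_one]

lemma norm_mul_entry {a b c : ℕ} (M : Matrix (Fin a) (Fin b) (MonoidAlgebra ℂ G))
    (N : Matrix (Fin b) (Fin c) (MonoidAlgebra ℂ G)) (x y : ℝ) (hx : ∀ i j, ‖Lam G (M i j)‖ ≤ x)
    (hy : ∀ i j, ‖Lam G (N i j)‖ ≤ y) (i : Fin a) (j : Fin c) :
    ‖Lam G ((M * N) i j)‖ ≤ b * (x * y) := by
  rw [Matrix.mul_apply, map_sum]
  refine (norm_sum_le _ _).trans ?_
  have h2 : ∀ l ∈ (Finset.univ : Finset (Fin b)), ‖Lam G (M i l * N l j)‖ ≤ x * y := by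
    intro l _
    rw [map_mul]
    refine (norm_mul_le _ _).trans ?_
    exact mul_le_mul (hx i l) (hy l j) (norm_nonneg _) ((norm_nonneg _).trans (hx i l))
  refine (Finset.sum_le_sum h2).trans ?_
  rw [Finset.sum_const, Finset.card_univ, Fintype.card_fin, nsmul_eq_mul]

lemma norm_pow_entry {n : ℕ} (M : Matrix (Fin n) (Fin n) (MonoidAlgebra ℂ G))
    (hM : ∀ i j, ‖Lam G (M i j)‖ ≤ 1 / (2 * (n + 1))) (k : ℕ) (i j : Fin n) :
    ‖Lam G ((M ^ k) i j)‖ ≤ (1 / 2) ^ k := by
  induction k generalizing i j with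
  | zero =>
    rw [pow_zero, pow_zero]
    by_cases h : i = j
    · subst h
      rw [Matrix.one_apply_eq]
      exact norm_Lam_one_le
    · rw [Matrix.one_apply_ne h, map_zero, norm_zero]
      exact zero_le_one
  | succ k ih =>
    rw [pow_succ, pow_succ]
    refine (norm_mul_entry _ _ _ _ ih hM i j).trans ?_
    have hn : (0 : ℝ) < n + 1 := by positivity
    have h3 : (n : ℝ) * ((1 / 2) ^ k * (1 / (2 * (n + 1)))) = ((1 / 2) ^ k * (1 / 2)) * (n / (n + 1)) := by
      field_simp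
    rw [h3]
    refine mul_le_of_le_one_right (by positivity) ?_
    rw [div_le_one hn]
    linarith

/-! ### supports -/

/-- the support is contained in `A` -/
def Sp (A : Set G) (a : MonoidAlgebra ℂ G) : Prop := ∀ g, a.coeff g ≠ 0 → g ∈ A

lemma Sp.sum {A : Set G} {ι : Type*} (s : Finset ι) (f : ι → MonoidAlgebra ℂ G)
    (h : ∀ i ∈ s, Sp A (f i)) : Sp A (∑ i ∈ s, f i) := by
  intro g hg
  rw [coeff_sum, Finsupp.finsetSum_apply] at hg
  obtain ⟨i, hi, h2⟩ := Finset.exists_ne_zero_of_sum_ne_zero hg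
  exact h i hi g h2

lemma Sp.mul {A B : Set G} {a b : MonoidAlgebra ℂ G} (ha : Sp A a) (hb : Sp B b) :
    Sp (A * B) (a * b) := by
  classical
  intro g hg
  by_contra hcon
  apply hg
  rw [coeff_mul]
  refine Finset.sum_eq_zero fun x hx => Finset.sum_eq_zero fun y hy => ?_
  refine if_neg fun h => hcon ?_
  rw [← h]
  exact Set.mul_mem_mul (ha x (Finsupp.mem_support_iff.1 hx)) (hb y (Finsupp.mem_support_iff.1 hy))

lemma Sp_mat_mul {A B : Set G} {a b c : ℕ} (M : Matrix (Fin a) (Fin b) (MonoidAlgebra ℂ G))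
    (N : Matrix (Fin b) (Fin c) (MonoidAlgebra ℂ G)) (hM : ∀ i j, Sp A (M i j))
    (hN : ∀ i j, Sp B (N i j)) (i : Fin a) (j : Fin c) : Sp (A * B) ((M * N) i j) := by
  rw [Matrix.mul_apply]
  exact Sp.sum _ _ fun l _ => (hM i l).mul (hN l j)

lemma Sp_mat_pow {A : Set G} {n : ℕ} (M : Matrix (Fin n) (Fin n) (MonoidAlgebra ℂ G))
    (hM : ∀ i j, Sp A (M i j)) (k : ℕ) (i j : Fin n) : Sp (A ^ k) ((M ^ k) i j) := by
  classical
  induction k generalizing i j with
  | zero =>
    rw [pow_zero, pow_zero]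
    intro g hg
    rw [Set.mem_one]
    by_contra h1
    apply hg
    by_cases h : i = j
    · subst h
      rw [Matrix.one_apply_eq, one_def, coeff_single, Finsupp.single_apply, if_neg (fun h => h1 h.symm)]
    · rw [Matrix.one_apply_ne h, coeff_zero, Finsupp.zero_apply]
  | succ k ih =>
    rw [pow_succ, pow_succ]
    exact Sp_mat_mul _ _ ih hM i j

/-- the entries of two matrices are supported in a finite set -/
lemma exists_supp {a b c d : ℕ} (M : Matrix (Fin a) (Fin b) (MonoidAlgebra ℂ G))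
    (N : Matrix (Fin c) (Fin d) (MonoidAlgebra ℂ G)) :
    ∃ S : Finset G, (∀ i j, Sp (S : Set G) (M i j)) ∧ ∀ i j, Sp (S : Set G) (N i j) := by
  classical
  refine ⟨(Finset.univ.biUnion fun i => Finset.univ.biUnion fun j => (M i j).coeff.support) ∪
    (Finset.univ.biUnion fun i => Finset.univ.biUnion fun j => (N i j).coeff.support), ?_, ?_⟩
  · intro i j g hg
    rw [Finset.mem_coe, Finset.mem_union]
    left
    refine Finset.mem_biUnion.2 ⟨i, Finset.mem_univ _, Finset.mem_biUnion.2 ⟨j, Finset.mem_univ _, ?_⟩⟩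
    exact Finsupp.mem_support_iff.2 hg
  · intro i j g hg
    rw [Finset.mem_coe, Finset.mem_union]
    right
    refine Finset.mem_biUnion.2 ⟨i, Finset.mem_univ _, Finset.mem_biUnion.2 ⟨j, Finset.mem_univ _, ?_⟩⟩
    exact Finsupp.mem_support_iff.2 hg

/-! ### the approximate contraction -/

/-- the sum of the norms of the entries -/
def tot {a b : ℕ} (M : Matrix (Fin a) (Fin b) (MonoidAlgebra ℂ G)) : ℝ :=
  ∑ i, ∑ j, ‖Lam G (M i j)‖

lemma tot_nonneg {a b : ℕ} (M : Matrix (Fin a) (Fin b) (MonoidAlgebra ℂ G)) : 0 ≤ tot M :=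
  Finset.sum_nonneg fun _ _ => Finset.sum_nonneg fun _ _ => norm_nonneg _

lemma entry_le_tot {a b : ℕ} (M : Matrix (Fin a) (Fin b) (MonoidAlgebra ℂ G)) (i : Fin a)
    (j : Fin b) : ‖Lam G (M i j)‖ ≤ tot M :=
  (Finset.single_le_sum (f := fun j => ‖Lam G (M i j)‖) (fun _ _ => norm_nonneg _)
    (Finset.mem_univ j)).trans
    (Finset.single_le_sum (f := fun i => ∑ j, ‖Lam G (M i j)‖)
      (fun _ _ => Finset.sum_nonneg fun _ _ => norm_nonneg _) (Finset.mem_univ i))

lemma col_le_tot {a b : ℕ} (M : Matrix (Fin a) (Fin b) (MonoidAlgebra ℂ G)) (j : Fin b) :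
    ∑ i, ‖Lam G (M i j)‖ ≤ tot M :=
  Finset.sum_le_sum fun i _ => Finset.single_le_sum (f := fun j => ‖Lam G (M i j)‖)
    (fun _ _ => norm_nonneg _) (Finset.mem_univ j)

lemma row_le_tot {a b : ℕ} (M : Matrix (Fin a) (Fin b) (MonoidAlgebra ℂ G)) (i : Fin a) :
    ∑ j, ‖Lam G (M i j)‖ ≤ tot M :=
  Finset.single_le_sum (f := fun i => ∑ j, ‖Lam G (M i j)‖)
      (fun _ _ => Finset.sum_nonneg fun _ _ => norm_nonneg _) (Finset.mem_univ i)

/-- an approximate contraction with coefficients in the group ring, abstract form -/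
theorem exists_small_abs {S : Type} [Ring S] (φ : MonoidAlgebra ℤ G →+* S)
    (val : S →+* (L2 G →L[ℂ] L2 G)) (hval : ∀ a, val (φ a) = Lam G (cx G a))
    (happ : ∀ (x : S) (ε : ℝ), 0 < ε → ∃ a : MonoidAlgebra ℂ G, ‖val x - Lam G a‖ < ε)
    (X : FinRes G) (p : ℕ) (hex : ∀ i ≤ p, ExAt X φ i) :
    ∃ s : ∀ i, Matrix (Fin (X.n i)) (Fin (X.n (i + 1))) (MonoidAlgebra ℂ G),
      ∀ i ≤ p, ∀ a b, ‖Lam G (err X s i a b)‖ ≤ 1 / (2 * (X.n i + 1)) := by
  obtain ⟨σ, hσ0, hσ⟩ := contraction' X φ p hex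
  set A : ℕ → ℝ := fun i => 2 * (X.n i + 1) * (tot (dC X i) + tot (dC X (i - 1))) with hA
  have hA0 : ∀ i, 0 ≤ A i := fun i =>
    mul_nonneg (by positivity) (add_nonneg (tot_nonneg _) (tot_nonneg _))
  set ε : ℝ := 1 / (1 + ∑ i ∈ Finset.range (p + 1), A i) with hε
  have hpos : 0 < 1 + ∑ i ∈ Finset.range (p + 1), A i :=
    add_pos_of_pos_of_nonneg one_pos (Finset.sum_nonneg fun i _ => hA0 i)
  have hε0 : 0 < ε := div_pos one_pos hpos
  have hεA : ∀ i ≤ p, ε * A i ≤ 1 := by
    intro i hi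
    rw [hε, one_div, inv_mul_le_iff₀ hpos, mul_one]
    have := Finset.single_le_sum (f := A) (fun i _ => hA0 i)
      (Finset.mem_range.2 (Nat.lt_succ_of_le hi))
    linarith
  choose s hs using fun (i : ℕ) (a : Fin (X.n i)) (b : Fin (X.n (i + 1))) =>
    happ (σ i a b) ε hε0
  refine ⟨fun i => Matrix.of (s i), ?_⟩
  -- the two kinds of products
  have hL : ∀ (i : ℕ) (a : Fin (X.n i)) (b : Fin (X.n i)),
      ‖∑ l, (val (σ i a l) - Lam G (s i a l)) * Lam G (dC X i l b)‖ ≤ ε * tot (dC X i) := by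
    intro i a b
    refine (norm_sum_le _ _).trans ?_
    have h1 : ∀ l ∈ (Finset.univ : Finset (Fin (X.n (i + 1)))),
        ‖(val (σ i a l) - Lam G (s i a l)) * Lam G (dC X i l b)‖ ≤ ε * ‖Lam G (dC X i l b)‖ := by
      intro l _
      refine (norm_mul_le _ _).trans ?_
      exact mul_le_mul_of_nonneg_right (hs i a l).le (norm_nonneg _)
    refine (Finset.sum_le_sum h1).trans ?_
    rw [← Finset.mul_sum]
    exact mul_le_mul_of_nonneg_left (col_le_tot _ _) hε0.le
  have hR : ∀ (i : ℕ) (a : Fin (X.n (i + 1))) (b : Fin (X.n (i + 1))),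
      ‖∑ l, Lam G (dC X i a l) * (val (σ i l b) - Lam G (s i l b))‖ ≤ ε * tot (dC X i) := by
    intro i a b
    refine (norm_sum_le _ _).trans ?_
    have h1 : ∀ l ∈ (Finset.univ : Finset (Fin (X.n i))),
        ‖Lam G (dC X i a l) * (val (σ i l b) - Lam G (s i l b))‖ ≤ ‖Lam G (dC X i a l)‖ * ε := by
      intro l _
      refine (norm_mul_le _ _).trans ?_
      exact mul_le_mul_of_nonneg_left (hs i l b).le (norm_nonneg _)
    refine (Finset.sum_le_sum h1).trans ?_
    rw [← Finset.sum_mul, mul_comm]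
    exact mul_le_mul_of_nonneg_left (row_le_tot _ _) hε0.le
  have hd : ∀ i a b, val ((X.d i).map φ a b) = Lam G (dC X i a b) := by
    intro i a b
    exact hval _
  have hone : ∀ {n : ℕ} (a b : Fin n), val ((1 : Matrix (Fin n) (Fin n) S) a b) =
      Lam G ((1 : Matrix (Fin n) (Fin n) (MonoidAlgebra ℂ G)) a b) := by
    intro n a b
    by_cases hab : a = b
    · subst hab
      rw [Matrix.one_apply_eq, Matrix.one_apply_eq, map_one, map_one]
    · rw [Matrix.one_apply_ne hab, Matrix.one_apply_ne hab, map_zero, map_zero]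
  intro i hi a b
  have hfin : ∀ c : ℝ, c ≤ ε * (tot (dC X i) + tot (dC X (i - 1))) →
      c ≤ 1 / (2 * ((X.n i : ℝ) + 1)) := by
    intro c hc
    have h1 := hεA i hi
    have hn : (0 : ℝ) < 2 * ((X.n i : ℝ) + 1) := by positivity
    rw [le_div_iff₀ hn]
    calc c * (2 * ((X.n i : ℝ) + 1)) ≤
          ε * (tot (dC X i) + tot (dC X (i - 1))) * (2 * ((X.n i : ℝ) + 1)) :=
          mul_le_mul_of_nonneg_right hc hn.le
      _ = ε * A i := by rw [hA]; ring
      _ ≤ 1 := h1
  refine hfin _ ?_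
  cases i with
  | zero =>
    have h3 : val ((σ 0 * (X.d 0).map φ) a b) =
        ∑ l, val (σ 0 a l) * Lam G (dC X 0 l b) := by
      rw [Matrix.mul_apply, map_sum]
      refine Finset.sum_congr rfl fun l _ => ?_
      rw [map_mul, hd]
    rw [hσ0, hone] at h3
    have h5 : Lam G (err X (fun i => Matrix.of (s i)) 0 a b) =
        Lam G ((1 : Matrix (Fin (X.n 0)) (Fin (X.n 0)) (MonoidAlgebra ℂ G)) a b) -
        ∑ l, Lam G (s 0 a l) * Lam G (dC X 0 l b) := by
      rw [err, Matrix.sub_apply, map_sub, Matrix.mul_apply, map_sum]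
      congr 1
      refine Finset.sum_congr rfl fun l _ => ?_
      rw [map_mul, Matrix.of_apply]
    have h1 : Lam G (err X (fun i => Matrix.of (s i)) 0 a b) =
        ∑ l, (val (σ 0 a l) - Lam G (s 0 a l)) * Lam G (dC X 0 l b) := by
      rw [h5, h3, ← Finset.sum_sub_distrib]
      refine Finset.sum_congr rfl fun l _ => ?_
      rw [sub_mul]
    rw [h1]
    refine (hL 0 a b).trans ?_
    exact mul_le_mul_of_nonneg_left (le_add_of_nonneg_right (tot_nonneg _)) hε0.le
  | succ i =>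
    have h3 : val (((X.d i).map φ * σ i + σ (i + 1) * (X.d (i + 1)).map φ) a b) =
        ∑ l, Lam G (dC X i a l) * val (σ i l b) +
        ∑ l, val (σ (i + 1) a l) * Lam G (dC X (i + 1) l b) := by
      rw [Matrix.add_apply, map_add, Matrix.mul_apply, Matrix.mul_apply, map_sum, map_sum]
      congr 1
      · refine Finset.sum_congr rfl fun l _ => ?_
        rw [map_mul, hd]
      · refine Finset.sum_congr rfl fun l _ => ?_
        rw [map_mul, hd]
    rw [hσ i hi, hone] at h3
    have h5 : Lam G (err X (fun i => Matrix.of (s i)) (i + 1) a b) =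
        Lam G ((1 : Matrix (Fin (X.n (i + 1))) (Fin (X.n (i + 1))) (MonoidAlgebra ℂ G)) a b) -
        (∑ l, Lam G (dC X i a l) * Lam G (s i l b) +
          ∑ l, Lam G (s (i + 1) a l) * Lam G (dC X (i + 1) l b)) := by
      rw [err, Matrix.sub_apply, map_sub, Matrix.add_apply, map_add, Matrix.mul_apply,
        Matrix.mul_apply, map_sum, map_sum]
      congr 2
      · refine Finset.sum_congr rfl fun l _ => ?_
        rw [map_mul, Matrix.of_apply]
      · refine Finset.sum_congr rfl fun l _ => ?_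
        rw [map_mul, Matrix.of_apply]
    have h1 : Lam G (err X (fun i => Matrix.of (s i)) (i + 1) a b) =
        ∑ l, Lam G (dC X i a l) * (val (σ i l b) - Lam G (s i l b)) +
        ∑ l, (val (σ (i + 1) a l) - Lam G (s (i + 1) a l)) * Lam G (dC X (i + 1) l b) := by
      rw [h5, h3]
      have e1 : ∑ l, Lam G (dC X i a l) * (val (σ i l b) - Lam G (s i l b)) =
          ∑ l, Lam G (dC X i a l) * val (σ i l b) - ∑ l, Lam G (dC X i a l) * Lam G (s i l b) := by
        rw [← Finset.sum_sub_distrib]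
        refine Finset.sum_congr rfl fun l _ => ?_
        rw [mul_sub]
      have e2 : ∑ l, (val (σ (i + 1) a l) - Lam G (s (i + 1) a l)) * Lam G (dC X (i + 1) l b) =
          ∑ l, val (σ (i + 1) a l) * Lam G (dC X (i + 1) l b) -
            ∑ l, Lam G (s (i + 1) a l) * Lam G (dC X (i + 1) l b) := by
        rw [← Finset.sum_sub_distrib]
        refine Finset.sum_congr rfl fun l _ => ?_
        rw [sub_mul]
      rw [e1, e2]
      abel
    rw [h1]
    refine (norm_add_le _ _).trans ?_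
    refine (add_le_add (hR i a b) (hL (i + 1) a b)).trans ?_
    rw [← mul_add, Nat.add_sub_cancel, add_comm]

/-- **an approximate contraction with coefficients in the group ring** -/
theorem exists_small (X : FinRes G) (p : ℕ) (hex : ∀ i ≤ p, ExAt X (toRed G) i) :
    ∃ s : ∀ i, Matrix (Fin (X.n i)) (Fin (X.n (i + 1))) (MonoidAlgebra ℂ G),
      ∀ i ≤ p, ∀ a b, ‖Lam G (err X s i a b)‖ ≤ 1 / (2 * (X.n i + 1)) :=
  exists_small_abs (toRed G) valR (fun a => by rw [Lam_cx, coe_toRed])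
    (fun x _ hε => exists_approx x hε) X p hex

end

end Pool.Agent.W5h87.ZSlow
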