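import Pool.Agent.W5h87.ZSlow.Defs

/-!
# The inclusion of the resolution of the subgroup
-/

set_option autoImplicit false
set_option linter.unusedSectionVars false

open scoped Matrix Pointwise

namespace Pool.Agent.W5h87.ZSlow

open Pool.Agent.H919R4.ZS Pool.Agent.TH38.ZT MonoidAlgebra

noncomputable section

variable {G : Type} [Group G] {H : Subgroup G}

/-- the inclusion of the integral group rings -/
def inc (H : Subgroup G) : MonoidAlgebra ℤ H →+* MonoidAlgebra ℤ G :=
  MonoidAlgebra.mapDomainRingHom ℤ H.subtype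

@[simp] lemma inc_single (h : H) (c : ℤ) : inc H (single h c) = single (h : G) c := by
  simp [inc]

lemma augm_inc (a : MonoidAlgebra ℤ H) : augm G (inc H a) = augm H a := by
  refine MonoidAlgebra.induction_linear a ?_ ?_ ?_
  · simp
  · intro x y hx hy
    rw [map_add, map_add, map_add, hx, hy]
  · intro h c
    rw [inc_single, augm_single, augm_single]

lemma map_mul' {S T : Type*} [Ring S] [Ring T] (ψ : S →+* T) {a b c : ℕ}
    (M : Matrix (Fin a) (Fin b) S) (N : Matrix (Fin b) (Fin c) S) :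
    (M * N).map ψ = M.map ψ * N.map ψ := Matrix.map_mul

/-- the chain map `Z[G] ⊗ Y → X` -/
theorem exists_incl (X : FinRes G) (Y : FinRes H) :
    ∃ U : ∀ i, Matrix (Fin (Y.n i)) (Fin (X.n i)) (MonoidAlgebra ℤ G),
      (∀ k, eps X (U 0 k) = Y.aug k) ∧ ∀ i, (Y.d i).map (inc H) * U i = U (i + 1) * X.d i := by
  obtain ⟨x0, hx0⟩ := X.surj
  change eps X x0 = 1 at hx0
  let Good : ∀ i, Matrix (Fin (Y.n i)) (Fin (X.n i)) (MonoidAlgebra ℤ G) → Prop := fun i =>
    match i with
    | 0 => fun F => ∀ k, eps X (F k) = Y.aug k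
    | i + 1 => fun F => (Y.d (i + 1)).map (inc H) * F * X.d i = 0
  obtain ⟨f, hf0, hf⟩ := dep_seq
    (α := fun i => {F : Matrix (Fin (Y.n i)) (Fin (X.n i)) (MonoidAlgebra ℤ G) // Good i F})
    (fun i F F' => (Y.d i).map (inc H) * F.1 = F'.1 * X.d i)
    ⟨fun k => Y.aug k • x0, fun k => by
      rw [eps_zsmul, hx0, mul_one]⟩ (by
      rintro i ⟨F, hF⟩
      obtain ⟨F', hF'⟩ : ∃ s : Matrix (Fin (Y.n (i + 1))) (Fin (X.n (i + 1))) (MonoidAlgebra ℤ G),
          s * X.d i = (Y.d i).map (inc H) * F := by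
        cases i with
        | zero =>
          refine zrows_zero X _ fun k => ?_
          rw [Matrix.mul_apply_eq_vecMul, eps_vecMul]
          have h1 : eps Y (Y.d 0 k) = 0 := by
            have := eps_d Y (Pi.single k 1)
            rwa [Matrix.single_one_vecMul] at this
          rw [← h1]
          refine Finset.sum_congr rfl fun j _ => ?_
          rw [hF j, Matrix.map_apply, augm_inc]
        | succ i => exact zrows_succ X i _ hF
      refine ⟨⟨F', ?_⟩, hF'.symm⟩
      change (Y.d (i + 1)).map (inc H) * F' * X.d i = 0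
      rw [Matrix.mul_assoc, hF', ← Matrix.mul_assoc, ← map_mul', d_mul_d]
      ext a b
      simp)
  exact ⟨fun i => (f i).1, (f 0).2, hf⟩

variable {X : FinRes G} {Y : FinRes H}

/-- linearity over the group ring -/
lemma ChainMap.linear' (v : ChainMap X Y) (i : ℕ) (a : MonoidAlgebra ℤ H)
    (x : Fin (X.n i) → MonoidAlgebra ℤ G) :
    v.toFun i (inc H a • x) = a • v.toFun i x := by
  refine MonoidAlgebra.induction_linear a ?_ ?_ ?_
  · rw [map_zero, zero_smul, zero_smul, map_zero]
  · intro a b ha hb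
    rw [map_add, add_smul, add_smul, map_add, ha, hb]
  · intro h c
    have h1 : ∀ {Γ : Type} [Group Γ] (g : Γ), (single g c : MonoidAlgebra ℤ Γ) =
        c • single g 1 := by
      intro Γ _ g
      rw [smul_single, smul_eq_mul, mul_one]
    rw [inc_single, h1, h1, smul_assoc, smul_assoc, map_zsmul, v.linear]

lemma ChainMap.vecMul (v : ChainMap X Y) (i : ℕ) {a : ℕ} (y : Fin a → MonoidAlgebra ℤ H)
    (M : Matrix (Fin a) (Fin (X.n i)) (MonoidAlgebra ℤ G)) :
    v.toFun i ((fun k => inc H (y k)) ᵥ* M) =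
      y ᵥ* (Matrix.of fun k => v.toFun i (M k) : Matrix (Fin a) (Fin (Y.n i)) (MonoidAlgebra ℤ H)) := by
  have h1 : (fun k => inc H (y k)) ᵥ* M = ∑ k, inc H (y k) • M k := by
    funext j
    simp [Matrix.vecMul, dotProduct, Finset.sum_apply]
  have h2 : y ᵥ* (Matrix.of fun k => v.toFun i (M k) :
      Matrix (Fin a) (Fin (Y.n i)) (MonoidAlgebra ℤ H)) = ∑ k, y k • v.toFun i (M k) := by
    funext j
    simp [Matrix.vecMul, dotProduct, Finset.sum_apply]
  rw [h1, h2, map_sum]
  exact Finset.sum_congr rfl fun k _ => v.linear' i _ _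

/-- the composition `v ∘ u` is homotopic to the identity -/
theorem exists_homotopy' (v : ChainMap X Y)
    (U : ∀ i, Matrix (Fin (Y.n i)) (Fin (X.n i)) (MonoidAlgebra ℤ G))
    (hU0 : ∀ k, eps X (U 0 k) = Y.aug k)
    (hU : ∀ i, (Y.d i).map (inc H) * U i = U (i + 1) * X.d i) :
    ∃ h : ∀ i, Matrix (Fin (Y.n i)) (Fin (Y.n (i + 1))) (MonoidAlgebra ℤ H),
      (Matrix.of fun k => v.toFun 0 (U 0 k) : Matrix (Fin (Y.n 0)) (Fin (Y.n 0)) _) - 1 =
          h 0 * Y.d 0 ∧
      ∀ i, (Matrix.of fun k => v.toFun (i + 1) (U (i + 1) k) :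
          Matrix (Fin (Y.n (i + 1))) (Fin (Y.n (i + 1))) _) - 1 =
        Y.d i * h i + h (i + 1) * Y.d (i + 1) := by
  refine exists_homotopy Y (fun i => Matrix.of fun k => v.toFun i (U i k)) ?_ ?_
  · intro k
    have := v.aug (U 0 k)
    exact this.trans (hU0 k)
  · intro i
    refine funext fun k => ?_
    rw [Matrix.mul_apply_eq_vecMul, Matrix.mul_apply_eq_vecMul, ← v.vecMul]
    have h1 : (fun j => inc H (Y.d i k j)) ᵥ* U i = U (i + 1) k ᵥ* X.d i := by
      rw [← Matrix.mul_apply_eq_vecMul, ← hU i, Matrix.mul_apply_eq_vecMul]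
      rfl
    rw [h1, v.chain]
    rfl

end

end Pool.Agent.W5h87.ZSlow
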