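import Pool.Agent.W5h87.ZSlow.Cplx

/-!
# The complex group ring in the reduced group C*-algebra
-/

set_option autoImplicit false
set_option linter.unusedSectionVars false

open scoped Matrix Pointwise ENNReal

namespace Pool.Agent.W5h87.ZSlow

open Pool.Agent.H919R4.ZS Pool.Agent.TH38.ZT MonoidAlgebra

noncomputable section

/-- the left regular representation -/
def lamHom (Γ : Type) [Group Γ] : Γ →* (L2 Γ →L[ℂ] L2 Γ) := lregHom Γ

lemma lamHom_apply {Γ : Type} [Group Γ] (g : Γ) : lamHom Γ g = lregL g := rfl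

/-- the complex group ring acting on `ℓ²` -/
def Lam (Γ : Type) [Group Γ] : MonoidAlgebra ℂ Γ →ₐ[ℂ] (L2 Γ →L[ℂ] L2 Γ) :=
  MonoidAlgebra.lift ℂ _ Γ (lamHom Γ)

lemma Lam_single {Γ : Type} [Group Γ] (g : Γ) (c : ℂ) : Lam Γ (single g c) = c • lregL g := by
  rw [Lam, MonoidAlgebra.lift_single]; rfl

lemma Lam_cx {Γ : Type} [Group Γ] (a : MonoidAlgebra ℤ Γ) : Lam Γ (cx Γ a) = L a := by
  refine MonoidAlgebra.induction_linear a ?_ ?_ ?_
  · simp
  · intro x y hx hy
    simp only [map_add, hx, hy]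
  · intro g c
    rw [cx_single, Lam_single, L_single, Int.cast_smul_eq_zsmul]

lemma norm_lregL_le {Γ : Type} [Group Γ] (g : Γ) : ‖(lregL g : L2 Γ →L[ℂ] L2 Γ)‖ ≤ 1 := by
  refine ContinuousLinearMap.opNorm_le_bound _ zero_le_one fun f => ?_
  rw [one_mul]
  exact (norm_shift g f).le

/-- `‖λ(g)‖ ≤ 1` in the form for the group ring -/
lemma norm_Lam_single {Γ : Type} [Group Γ] (g : Γ) (c : ℂ) : ‖Lam Γ (single g c)‖ ≤ ‖c‖ := by
  rw [Lam_single, norm_smul]
  exact mul_le_of_le_one_right (norm_nonneg _) (norm_lregL_le g)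

lemma norm_Lam_cx_le {Γ : Type} [Group Γ] (a : MonoidAlgebra ℤ Γ) : ‖Lam Γ (cx Γ a)‖ ≤ l1 a := by
  have h1 : cx Γ a = ∑ g ∈ a.coeff.support, single g ((a.coeff g : ℤ) : ℂ) := by
    conv_lhs => rw [← sum_coeff_single a]
    rw [Finsupp.sum, map_sum]
    exact Finset.sum_congr rfl fun g _ => cx_single g _
  rw [h1, map_sum]
  refine (norm_sum_le _ _).trans (Finset.sum_le_sum fun g _ => ?_)
  refine (norm_Lam_single g _).trans ?_
  rw [Complex.norm_intCast]

lemma Lam_mem {Γ : Type} [Group Γ] (a : MonoidAlgebra ℂ Γ) :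
    (show Op Γ from Lam Γ a) ∈ redCstar Γ := by
  refine Subring.le_topologicalClosure _ ?_
  refine MonoidAlgebra.induction_linear a ?_ ?_ ?_
  · rw [map_zero]; exact Subring.zero_mem _
  · intro x y hx hy
    rw [map_add]; exact Subring.add_mem _ hx hy
  · intro g c
    refine Subring.subset_closure ⟨c, g, ?_⟩
    exact Lam_single g c

/-- the complex group ring in the reduced group C*-algebra -/
def redL (Γ : Type) [Group Γ] : MonoidAlgebra ℂ Γ →+* RedC Γ where
  toFun a := (⟨Lam Γ a, Lam_mem a⟩ : redCstar Γ)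
  map_one' := Subtype.ext (map_one (Lam Γ))
  map_mul' a b := Subtype.ext (map_mul (Lam Γ) a b)
  map_zero' := Subtype.ext (map_zero (Lam Γ))
  map_add' a b := Subtype.ext (map_add (Lam Γ) a b)

lemma valR_redL {Γ : Type} [Group Γ] (a : MonoidAlgebra ℂ Γ) : valR (redL Γ a) = Lam Γ a := rfl

lemma valR_injective {Γ : Type} [Group Γ] : Function.Injective (valR : RedC Γ → _) := by
  intro a b h
  exact Subtype.ext (p := fun y => y ∈ redCstar Γ) h

lemma redL_cx {Γ : Type} [Group Γ] (a : MonoidAlgebra ℤ Γ) : redL Γ (cx Γ a) = toRed Γ a :=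
  valR_injective (by rw [valR_redL, Lam_cx, coe_toRed])

/-- the complex group ring in the bounded operators -/
def LamR (Γ : Type) [Group Γ] : MonoidAlgebra ℂ Γ →+* Op Γ where
  toFun a := Lam Γ a
  map_one' := map_one (Lam Γ)
  map_mul' a b := map_mul (Lam Γ) a b
  map_zero' := map_zero (Lam Γ)
  map_add' a b := map_add (Lam Γ) a b

/-- density of the complex group ring -/
lemma exists_approx {Γ : Type} [Group Γ] (s : RedC Γ) {ε : ℝ} (hε : 0 < ε) :
    ∃ a : MonoidAlgebra ℂ Γ, ‖valR s - Lam Γ a‖ < ε := by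
  have h1 : (valR s : Op Γ) ∈ closure ((groupRing Γ : Subring (Op Γ)) : Set (Op Γ)) :=
    Subtype.property (p := fun y => y ∈ redCstar Γ) s
  obtain ⟨b, hb, hd⟩ := Metric.mem_closure_iff.1 h1 ε hε
  have h2 : groupRing Γ ≤ (LamR Γ).range := by
    rw [groupRing, Subring.closure_le]
    rintro _ ⟨c, g, rfl⟩
    exact ⟨single g c, Lam_single g c⟩
  obtain ⟨a, rfl⟩ := h2 hb
  exact ⟨a, by rw [← dist_eq_norm]; exact hd⟩

/-! ### norms in `ℓ²` -/

lemma two_toReal : (2 : ℝ≥0∞).toReal = ((2 : ℕ) : ℝ) := by norm_num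

lemma summable_sq {Γ : Type} (f : L2 Γ) : Summable fun x => ‖f x‖ ^ 2 := by
  have h := (lp.memℓp f).summable (by norm_num)
  simpa only [two_toReal, Real.rpow_natCast] using h

lemma norm_sq_eq {Γ : Type} (f : L2 Γ) : ‖f‖ ^ 2 = ∑' x, ‖f x‖ ^ 2 := by
  have h := lp.norm_rpow_eq_tsum (p := 2) (by norm_num) f
  simpa only [two_toReal, Real.rpow_natCast] using h

lemma memlp_of_summable {Γ : Type} {f : Γ → ℂ} (h : Summable fun x => ‖f x‖ ^ 2) : Memℓp f 2 := by
  refine memℓp_gen ?_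
  simpa only [two_toReal, Real.rpow_natCast] using h

variable {G : Type} [Group G] {H : Subgroup G}

open Classical in
/-- the extension by zero of a function on `H` -/
def ex0 (f : H → ℂ) (x : G) : ℂ := if hx : x ∈ H then f ⟨x, hx⟩ else 0

lemma ex0_coe (f : H → ℂ) (h : H) : ex0 f (h : G) = f h := by
  rw [ex0, dif_pos h.2]

lemma ex0_not (f : H → ℂ) {x : G} (hx : x ∉ H) : ex0 f x = 0 := by
  rw [ex0, dif_neg hx]

lemma ex0_support (f : H → ℂ) {x : G} (hx : x ∉ Set.range (Subtype.val : H → G)) :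
    ‖ex0 f x‖ ^ 2 = 0 := by
  rw [ex0_not]
  · simp
  · intro h
    exact hx ⟨⟨x, h⟩, rfl⟩

lemma ex0_summable (f : L2 H) : Summable fun x => ‖ex0 (f : H → ℂ) x‖ ^ 2 := by
  rw [← Function.Injective.summable_iff (Subtype.val_injective (p := fun x => x ∈ H))
    (fun x hx => ex0_support _ hx)]
  have h : ((fun x => ‖ex0 (f : H → ℂ) x‖ ^ 2) ∘ (Subtype.val : H → G)) = fun h => ‖f h‖ ^ 2 := by
    funext h
    change ‖ex0 (f : H → ℂ) (h : G)‖ ^ 2 = _
    rw [ex0_coe]
  rw [h]
  exact summable_sq f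

/-- the extension by zero -/
def extL (f : L2 H) : L2 G := ⟨ex0 (f : H → ℂ), memlp_of_summable (ex0_summable f)⟩

lemma extL_apply (f : L2 H) (x : G) : extL f x = ex0 (f : H → ℂ) x := rfl

lemma norm_extL (f : L2 H) : ‖(extL f : L2 G)‖ = ‖f‖ := by
  have h : ‖(extL f : L2 G)‖ ^ 2 = ‖f‖ ^ 2 := by
    rw [norm_sq_eq, norm_sq_eq]
    have h1 := Function.Injective.tsum_eq (Subtype.val_injective (p := fun x => x ∈ H))
      (f := fun x => ‖ex0 (f : H → ℂ) x‖ ^ 2) (by
        intro x hx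
        by_contra hcon
        exact hx (ex0_support _ hcon))
    calc ∑' x, ‖(extL f : L2 G) x‖ ^ 2 = ∑' x, ‖ex0 (f : H → ℂ) x‖ ^ 2 := rfl
      _ = ∑' h : H, ‖ex0 (f : H → ℂ) (h : G)‖ ^ 2 := h1.symm
      _ = ∑' h : H, ‖f h‖ ^ 2 := by
        congr 1
        funext h
        rw [ex0_coe]
  exact (pow_left_inj₀ (norm_nonneg _) (norm_nonneg _) two_ne_zero).1 h

/-- the restriction -/
def resL (F : L2 G) : L2 H := ⟨fun h => F (h : G), memlp_of_summable
  ((summable_sq F).comp_injective Subtype.val_injective)⟩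

lemma norm_resL (F : L2 G) : ‖(resL F : L2 H)‖ ≤ ‖F‖ := by
  refine (pow_le_pow_iff_left₀ (norm_nonneg _) (norm_nonneg _) two_ne_zero).1 ?_
  rw [norm_sq_eq, norm_sq_eq]
  exact Summable.tsum_subtype_le (fun x => ‖F x‖ ^ 2) (H : Set G) (fun _ => by positivity)
    (summable_sq F)

/-- the restriction of an element of the group ring to a subgroup -/
def cE (H : Subgroup G) (a : MonoidAlgebra ℂ G) : MonoidAlgebra ℂ H :=
  MonoidAlgebra.comapDomain (Subtype.val : H → G) Subtype.val_injective a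

lemma cE_coeff (a : MonoidAlgebra ℂ G) (h : H) : (cE H a).coeff h = a.coeff (h : G) := by
  simp [cE]

lemma cE_add (a b : MonoidAlgebra ℂ G) : cE H (a + b) = cE H a + cE H b := by
  simp [cE]

lemma Lam_cE_apply (a : MonoidAlgebra ℂ G) (f : L2 H) (h : H) :
    (Lam H (cE H a) f) h = (Lam G a (extL f)) (h : G) := by
  refine MonoidAlgebra.induction_linear a ?_ ?_ ?_
  · have : cE H (0 : MonoidAlgebra ℂ G) = 0 := by simp [cE]
    rw [this, map_zero, map_zero]
    rfl
  · intro x y hx hy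
    rw [cE_add, map_add, map_add]
    change (Lam H (cE H x) f) h + (Lam H (cE H y) f) h =
      (Lam G x (extL f)) (h : G) + (Lam G y (extL f)) (h : G)
    rw [hx, hy]
  · intro g c
    rw [Lam_single]
    change _ = c * (lregL g (extL f)) (h : G)
    rw [lregL_apply, extL_apply]
    by_cases hg : g ∈ H
    · have h1 : cE H (single g c) = single (⟨g, hg⟩ : H) c := by
        exact comapDomain_single_map (Subtype.val : H → G) Subtype.val_injective ⟨g, hg⟩ c
      rw [h1, Lam_single]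
      change c * (lregL (⟨g, hg⟩ : H) f) h = _
      rw [lregL_apply]
      congr 1
      exact (ex0_coe (f : H → ℂ) (⟨g, hg⟩⁻¹ * h)).symm
    · have h1 : cE H (single g c) = 0 := by
        refine comapDomain_single_of_not_mem_range ?_ _
        rintro ⟨x, rfl⟩
        exact hg x.2
      rw [h1, map_zero, ex0_not, mul_zero]
      · rfl
      · intro h2
        apply hg
        have h3 := H.mul_mem h.2 (H.inv_mem h2)
        simpa using h3

/-- the restriction to a subgroup does not increase the norm -/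
theorem norm_cE_le (a : MonoidAlgebra ℂ G) : ‖Lam H (cE H a)‖ ≤ ‖Lam G a‖ := by
  refine ContinuousLinearMap.opNorm_le_bound _ (norm_nonneg _) fun f => ?_
  have h1 : Lam H (cE H a) f = resL (Lam G a (extL f)) := by
    ext h
    exact Lam_cE_apply a f h
  rw [h1]
  refine (norm_resL _).trans ?_
  refine ((Lam G a).le_opNorm _).trans ?_
  rw [norm_extL]

end

end Pool.Agent.W5h87.ZSlow
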