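import Pool.Agent.W5h87.ZSlow.Est

/-!
# Zero in the spectrum and coverings of subexponential growth
-/

set_option autoImplicit false
set_option linter.unusedSectionVars false

open scoped Matrix Pointwise ENNReal NNReal
open Filter Topology

namespace Pool.Agent.W5h87.ZSlow

open Pool.Agent.H919R4.ZS Pool.Agent.TH38.ZT MonoidAlgebra

noncomputable section

variable {G : Type} [Group G] {H : Subgroup G} {X : FinRes G} {Y : FinRes H}

lemma finite_pow (S : Finset G) (n : ℕ) : ((S : Set G) ^ n).Finite := by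
  classical
  rw [← Finset.coe_pow]
  exact Finset.finite_toSet _

/-- the errors become small over the subgroup -/
theorem eventually_small (v : ChainMap X Y)
    (U : ∀ i, Matrix (Fin (Y.n i)) (Fin (X.n i)) (MonoidAlgebra ℤ G)) (hH : SubexpCosets H) (i : ℕ)
    (hv : v.Slow i) (s : ∀ i, Matrix (Fin (X.n i)) (Fin (X.n (i + 1))) (MonoidAlgebra ℂ G))
    (hE : ∀ a b, ‖Lam G (err X s i a b)‖ ≤ 1 / (2 * (X.n i + 1))) :
    ∀ᶠ k : ℕ in atTop, ∀ a b, ‖Lam H (VV v U i i (err X s i ^ k) a b)‖ ≤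
      1 / (2 * (Y.n i + 1)) := by
  obtain ⟨S, hSU, hSE⟩ := exists_supp ((U i).map (cx G)) (err X s i)
  set δ : ℝ := Real.log (3 / 2) / 2 with hδ
  have hδ0 : 0 < δ := div_pos (Real.log_pos (by norm_num)) two_pos
  obtain ⟨C1, hC1⟩ := hH S δ hδ0
  obtain ⟨C2, hC2⟩ := hv S δ hδ0
  set C0 : ℝ := tot ((U i).map (cx G)) with hC0
  have hC0n : 0 ≤ C0 := tot_nonneg _
  have hexp : ∀ n : ℕ, Real.exp (δ * n) * Real.exp (δ * n) = (3 / 2) ^ n := by
    intro n
    rw [← Real.exp_add]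
    have h1 : δ * n + δ * n = n * Real.log (3 / 2) := by rw [hδ]; ring
    rw [h1, Real.exp_nat_mul, Real.exp_log (by norm_num)]
  have key : ∀ (k : ℕ) a b, ‖Lam H (VV v U i i (err X s i ^ k) a b)‖ ≤
      (X.n i * |C1| * X.n i * C0 * |C2| * (3 / 2)) * (3 / 4) ^ k := by
    intro k a b
    have h1 : ∀ j, Sp ((S : Set G) ^ (k + 1)) (((U i).map (cx G) * err X s i ^ k) a j) := by
      intro j
      rw [pow_succ']
      exact Sp_mat_mul _ _ hSU (Sp_mat_pow _ hSE k) a j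
    have h2 : ∀ j, ‖Lam G (((U i).map (cx G) * err X s i ^ k) a j)‖ ≤
        X.n i * (C0 * (1 / 2) ^ k) :=
      fun j => norm_mul_entry _ _ _ _ (fun a' b' => entry_le_tot _ a' b')
        (norm_pow_entry _ hE k) a j
    have h3 : ∀ g ∈ (S : Set G) ^ (k + 1), ∀ j, l1 (bv v i j g b) ≤
        |C2| * Real.exp (δ * (k + 1 : ℕ)) := by
      intro g hg j
      refine (hC2 (k + 1) g hg j b).trans ?_
      exact mul_le_mul_of_nonneg_right (le_abs_self _) (Real.exp_pos _).le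
    have h4 := norm_vC_le v i (((U i).map (cx G) * err X s i ^ k) a) _ h1 (finite_pow S (k + 1))
      _ _ h2 b h3
    refine (le_trans (le_of_eq rfl) h4).trans ?_
    have h5 : (cosets H ((S : Set G) ^ (k + 1)) : ℝ) ≤ |C1| * Real.exp (δ * (k + 1 : ℕ)) :=
      (hC1 (k + 1)).trans (mul_le_mul_of_nonneg_right (le_abs_self _) (Real.exp_pos _).le)
    have h6 : 0 ≤ X.n i * (C0 * (1 / 2) ^ k) * (|C2| * Real.exp (δ * (k + 1 : ℕ))) := by
      positivity
    calc (X.n i : ℝ) * (cosets H ((S : Set G) ^ (k + 1)) *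
          (X.n i * (C0 * (1 / 2) ^ k) * (|C2| * Real.exp (δ * (k + 1 : ℕ)))))
        ≤ X.n i * (|C1| * Real.exp (δ * (k + 1 : ℕ)) *
          (X.n i * (C0 * (1 / 2) ^ k) * (|C2| * Real.exp (δ * (k + 1 : ℕ))))) :=
          mul_le_mul_of_nonneg_left (mul_le_mul_of_nonneg_right h5 h6) (Nat.cast_nonneg _)
      _ = (X.n i * |C1| * X.n i * C0 * |C2|) *
          ((Real.exp (δ * (k + 1 : ℕ)) * Real.exp (δ * (k + 1 : ℕ))) * (1 / 2) ^ k) := by ring
      _ = (X.n i * |C1| * X.n i * C0 * |C2| * (3 / 2)) * (3 / 4) ^ k := by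
          rw [hexp, pow_succ]
          have h7 : (3 / 4 : ℝ) ^ k = (3 / 2) ^ k * (1 / 2) ^ k := by
            rw [← mul_pow]; norm_num
          rw [h7]
          ring
  have ht : Tendsto (fun k : ℕ => (X.n i * |C1| * X.n i * C0 * |C2| * (3 / 2)) * (3 / 4 : ℝ) ^ k)
      atTop (𝓝 0) := by
    have h8 := (tendsto_pow_atTop_nhds_zero_of_lt_one (r := (3 / 4 : ℝ)) (by norm_num)
      (by norm_num)).const_mul (X.n i * |C1| * X.n i * C0 * |C2| * (3 / 2))
    rwa [mul_zero] at h8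
  have hpos : (0 : ℝ) < 1 / (2 * (Y.n i + 1)) := by positivity
  filter_upwards [ht.eventually (gt_mem_nhds hpos)] with k hk a b
  exact (key k a b).trans hk.le

/-- **the main theorem** -/
theorem main (hH : SubexpCosets H) (v : ChainMap X Y) (p : ℕ) (hv : ∀ i ≤ p, v.Slow i)
    (hex : ∀ i ≤ p, ExAt X (toRed G) i) : ∀ i ≤ p, ExAt Y (toRed H) i := by
  obtain ⟨U, hU0, hU⟩ := exists_incl X Y
  obtain ⟨s, hs⟩ := exists_small X p hex
  have h1 : ∀ᶠ k : ℕ in atTop, ∀ i ∈ Finset.range (p + 1), ∀ a b,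
      ‖Lam H (VV v U i i (err X s i ^ k) a b)‖ ≤ 1 / (2 * (Y.n i + 1)) := by
    rw [Filter.eventually_all_finset]
    intro i hi
    have hi' : i ≤ p := Nat.lt_succ_iff.1 (Finset.mem_range.1 hi)
    exact eventually_small v U hH i (hv i hi') s (hs i hi')
  obtain ⟨k, hk⟩ := h1.exists
  obtain ⟨t, ht0, ht⟩ := algebraic v U hU0 hU s k
  exact exact_of_contraction Y p t (fun i => VV v U i i (err X s i ^ k)) ht0 ht
    (fun i hi => hk i (Finset.mem_range.2 (Nat.lt_succ_of_le hi)))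

/-- the main theorem in terms of homology -/
theorem main' (hH : SubexpCosets H) (v : ChainMap X Y) (p : ℕ) (hv : ∀ i ≤ p, v.Slow i)
    (h : (∃ i ≤ p, Nontrivial (Y.homology (toRed H) i)) ∨ (Y.len ≤ p ∧ euler Y ≠ 0)) :
    ∃ j ≤ p, Nontrivial (X.homology (toRed G) j) := by
  have h' : ∃ i ≤ p, Nontrivial (Y.homology (toRed H) i) := by
    rcases h with h | ⟨h1, h2⟩
    · exact h
    · obtain ⟨i, hi, h3⟩ := exists_of_euler Y h2
      exact ⟨i, hi.trans h1, h3⟩
  by_contra hcon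
  push Not at hcon
  obtain ⟨i, hi, hnt⟩ := h'
  have h4 := main hH v p hv (fun j hj => (exAt_iff X _ j).2 (hcon j hj)) i hi
  have h5 := (exAt_iff Y _ i).1 h4
  exact not_subsingleton _ h5

end

end Pool.Agent.W5h87.ZSlow
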