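import Pool.Agent.W5h87.ZSlow.Norm

/-!
# The algebra of the homotopies
-/

set_option autoImplicit false
set_option linter.unusedSectionVars false

open scoped Matrix Pointwise ENNReal

namespace Pool.Agent.W5h87.ZSlow

open Pool.Agent.H919R4.ZS Pool.Agent.TH38.ZT MonoidAlgebra

noncomputable section

/-- the differential with complex coefficients -/
def dC {Γ : Type} [Group Γ] (Z : FinRes Γ) (i : ℕ) :
    Matrix (Fin (Z.n (i + 1))) (Fin (Z.n i)) (MonoidAlgebra ℂ Γ) := (Z.d i).map (cx Γ)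

lemma dC_mul_dC {Γ : Type} [Group Γ] (Z : FinRes Γ) (i : ℕ) : dC Z (i + 1) * dC Z i = 0 :=
  dd Z (cx Γ) i

variable {G : Type} [Group G] {H : Subgroup G}

section Homotopy

variable (X : FinRes G) (s : ∀ i, Matrix (Fin (X.n i)) (Fin (X.n (i + 1))) (MonoidAlgebra ℂ G))

/-- the error of an approximate contraction -/
def err : ∀ i, Matrix (Fin (X.n i)) (Fin (X.n i)) (MonoidAlgebra ℂ G)
  | 0 => 1 - s 0 * dC X 0
  | i + 1 => 1 - (dC X i * s i + s (i + 1) * dC X (i + 1))

lemma err_comm (i : ℕ) : err X s (i + 1) * dC X i = dC X i * err X s i := by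
  cases i with
  | zero =>
    simp only [err]
    rw [Matrix.sub_mul, Matrix.add_mul, Matrix.mul_sub, Matrix.one_mul, Matrix.mul_one,
      Matrix.mul_assoc (s _) (dC X _) (dC X _), dC_mul_dC, Matrix.mul_zero, add_zero,
      Matrix.mul_assoc]
  | succ i =>
    simp only [err]
    rw [Matrix.sub_mul, Matrix.add_mul, Matrix.mul_sub, Matrix.one_mul, Matrix.mul_one,
      Matrix.mul_assoc (s _) (dC X _) (dC X _), dC_mul_dC, Matrix.mul_zero, add_zero,
      Matrix.mul_add, ← Matrix.mul_assoc (dC X (i + 1)) (dC X i), dC_mul_dC, Matrix.zero_mul,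
      zero_add, Matrix.mul_assoc]

lemma err_pow_comm (i m : ℕ) : err X s (i + 1) ^ m * dC X i = dC X i * err X s i ^ m := by
  induction m with
  | zero => rw [pow_zero, pow_zero, Matrix.one_mul, Matrix.mul_one]
  | succ m ih =>
    rw [pow_succ, pow_succ, Matrix.mul_assoc, err_comm, ← Matrix.mul_assoc, ih, Matrix.mul_assoc]

/-- the improved contraction -/
def imp (k i : ℕ) : Matrix (Fin (X.n i)) (Fin (X.n (i + 1))) (MonoidAlgebra ℂ G) :=
  (∑ m ∈ Finset.range k, err X s i ^ m) * s i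

lemma imp_zero (k : ℕ) : imp X s k 0 * dC X 0 = 1 - err X s 0 ^ k := by
  have h1 : s 0 * dC X 0 = 1 - err X s 0 := by rw [err, sub_sub_cancel]
  rw [imp, Matrix.mul_assoc, h1]
  exact geom_sum_mul_neg _ _

lemma imp_succ (k i : ℕ) : dC X i * imp X s k i + imp X s k (i + 1) * dC X (i + 1) =
    1 - err X s (i + 1) ^ k := by
  have h1 : dC X i * s i + s (i + 1) * dC X (i + 1) = 1 - err X s (i + 1) := by
    rw [err, sub_sub_cancel]
  have h2 : dC X i * imp X s k i = (∑ m ∈ Finset.range k, err X s (i + 1) ^ m) * (dC X i * s i) := by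
    rw [imp, ← Matrix.mul_assoc, ← Matrix.mul_assoc]
    congr 1
    rw [Matrix.mul_sum, Matrix.sum_mul]
    exact Finset.sum_congr rfl fun m _ => (err_pow_comm X s i m).symm
  rw [h2, imp, Matrix.mul_assoc, ← Matrix.mul_add, h1]
  exact geom_sum_mul_neg _ _

end Homotopy

variable {X : FinRes G} {Y : FinRes H}

/-- the matrix over `ℂ[H]` of `v ∘ M ∘ u` -/
def VV (v : ChainMap X Y) (U : ∀ i, Matrix (Fin (Y.n i)) (Fin (X.n i)) (MonoidAlgebra ℤ G)) (i j : ℕ)
    (M : Matrix (Fin (X.n i)) (Fin (X.n j)) (MonoidAlgebra ℂ G)) :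
    Matrix (Fin (Y.n i)) (Fin (Y.n j)) (MonoidAlgebra ℂ H) :=
  Matrix.of fun k => vC v j (((U i).map (cx G) * M) k)

variable (v : ChainMap X Y) (U : ∀ i, Matrix (Fin (Y.n i)) (Fin (X.n i)) (MonoidAlgebra ℤ G))

lemma VV_add (i j : ℕ) (M N : Matrix (Fin (X.n i)) (Fin (X.n j)) (MonoidAlgebra ℂ G)) :
    VV v U i j (M + N) = VV v U i j M + VV v U i j N := by
  refine funext fun k => ?_
  change vC v j (((U i).map (cx G) * (M + N)) k) = vC v j (((U i).map (cx G) * M) k) +
    vC v j (((U i).map (cx G) * N) k)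
  rw [Matrix.mul_add, ← map_add]
  rfl

lemma VV_sub (i j : ℕ) (M N : Matrix (Fin (X.n i)) (Fin (X.n j)) (MonoidAlgebra ℂ G)) :
    VV v U i j (M - N) = VV v U i j M - VV v U i j N := by
  rw [eq_sub_iff_add_eq, ← VV_add, sub_add_cancel]

lemma VV_one (i : ℕ) : VV v U i i 1 =
    (Matrix.of fun k => v.toFun i (U i k) :
      Matrix (Fin (Y.n i)) (Fin (Y.n i)) (MonoidAlgebra ℤ H)).map (cx H) := by
  refine funext fun k => ?_
  change vC v i (((U i).map (cx G) *
    (1 : Matrix (Fin (X.n i)) (Fin (X.n i)) (MonoidAlgebra ℂ G)) :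
      Matrix (Fin (Y.n i)) (Fin (X.n i)) (MonoidAlgebra ℂ G)) k) =
    fun j => cx H (v.toFun i (U i k) j)
  rw [Matrix.mul_one, ← vC_cx]
  rfl

lemma VV_right (i j : ℕ) (M : Matrix (Fin (X.n i)) (Fin (X.n (j + 1))) (MonoidAlgebra ℂ G)) :
    VV v U i (j + 1) M * dC Y j = VV v U i j (M * dC X j) := by
  refine funext fun k => ?_
  rw [Matrix.mul_apply_eq_vecMul]
  change vC v (j + 1) (((U i).map (cx G) * M) k) ᵥ* dC Y j =
    vC v j (((U i).map (cx G) * (M * dC X j)) k)
  rw [dC, ← vC_chain, ← Matrix.mul_assoc, Matrix.mul_apply_eq_vecMul ((U i).map (cx G) * M)]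
  rfl

lemma vecMul_eq_sum {S : Type*} [Ring S] {a b : ℕ} (x : Fin a → S) (M : Matrix (Fin a) (Fin b) S) :
    x ᵥ* M = ∑ l, x l • M l := by
  funext j
  simp [Matrix.vecMul, dotProduct, Finset.sum_apply]

lemma VV_left (hU : ∀ i, (Y.d i).map (inc H) * U i = U (i + 1) * X.d i) (i j : ℕ)
    (M : Matrix (Fin (X.n i)) (Fin (X.n j)) (MonoidAlgebra ℂ G)) :
    dC Y i * VV v U i j M = VV v U (i + 1) j (dC X i * M) := by
  refine funext fun k => ?_
  rw [Matrix.mul_apply_eq_vecMul, vecMul_eq_sum]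
  change ∑ l, dC Y i k l • vC v j (((U i).map (cx G) * M) l) =
    vC v j (((U (i + 1)).map (cx G) * (dC X i * M)) k)
  have h1 : ∀ l, dC Y i k l • vC v j (((U i).map (cx G) * M) l) =
      vC v j (cx G (inc H (Y.d i k l)) • (((U i).map (cx G) * M) l)) := by
    intro l
    rw [← incC_cx, vC_smul]
    rfl
  rw [Finset.sum_congr rfl fun l _ => h1 l, ← map_sum]
  congr 1
  have h2 : (U (i + 1)).map (cx G) * (dC X i * M) =
      (((Y.d i).map (inc H)).map (cx G)) * ((U i).map (cx G) * M) := by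
    rw [← Matrix.mul_assoc, ← Matrix.mul_assoc, dC, ← map_mul', ← map_mul', hU]
  rw [h2, Matrix.mul_apply_eq_vecMul, vecMul_eq_sum]
  rfl

/-- **the contraction of the resolution of the subgroup, up to the error** -/
theorem algebraic
    (hU0 : ∀ k, eps X (U 0 k) = Y.aug k)
    (hU : ∀ i, (Y.d i).map (inc H) * U i = U (i + 1) * X.d i)
    (s : ∀ i, Matrix (Fin (X.n i)) (Fin (X.n (i + 1))) (MonoidAlgebra ℂ G)) (k : ℕ) :
    ∃ t : ∀ i, Matrix (Fin (Y.n i)) (Fin (Y.n (i + 1))) (MonoidAlgebra ℂ H),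
      t 0 * dC Y 0 = 1 - VV v U 0 0 (err X s 0 ^ k) ∧
      ∀ i, dC Y i * t i + t (i + 1) * dC Y (i + 1) =
        1 - VV v U (i + 1) (i + 1) (err X s (i + 1) ^ k) := by
  obtain ⟨h, hh0, hh⟩ := exists_homotopy' v U hU0 hU
  refine ⟨fun i => VV v U i (i + 1) (imp X s k i) - (h i).map (cx H), ?_, fun i => ?_⟩
  · have e1 := congrArg (fun M => Matrix.map M (cx H)) hh0
    rw [Matrix.map_sub _ (map_sub (cx H)), map_one_mat, map_mul', ← VV_one] at e1
    change (VV v U 0 1 (imp X s k 0) - (h 0).map (cx H)) * dC Y 0 = _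
    rw [Matrix.sub_mul, VV_right, imp_zero, VV_sub]
    have e2 : (h 0).map (cx H) * dC Y 0 = VV v U 0 0 1 - 1 := e1.symm
    rw [e2]
    abel
  · have e1 := congrArg (fun M => Matrix.map M (cx H)) (hh i)
    rw [Matrix.map_sub _ (map_sub (cx H)), map_one_mat, Matrix.map_add _ (map_add (cx H)), map_mul',
      map_mul', ← VV_one] at e1
    change dC Y i * (VV v U i (i + 1) (imp X s k i) - (h i).map (cx H)) +
      (VV v U (i + 1) (i + 2) (imp X s k (i + 1)) - (h (i + 1)).map (cx H)) * dC Y (i + 1) = _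
    rw [Matrix.sub_mul, Matrix.mul_sub, VV_right, VV_left v U hU]
    have e2 : dC Y i * (h i).map (cx H) + (h (i + 1)).map (cx H) * dC Y (i + 1) =
        VV v U (i + 1) (i + 1) 1 - 1 := e1.symm
    have e3 : VV v U (i + 1) (i + 1) (dC X i * imp X s k i) +
        VV v U (i + 1) (i + 1) (imp X s k (i + 1) * dC X (i + 1)) =
        VV v U (i + 1) (i + 1) 1 - VV v U (i + 1) (i + 1) (err X s (i + 1) ^ k) := by
      rw [← VV_add, imp_succ, VV_sub]
    calc _ = (VV v U (i + 1) (i + 1) (dC X i * imp X s k i) +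
          VV v U (i + 1) (i + 1) (imp X s k (i + 1) * dC X (i + 1))) -
          (dC Y i * (h i).map (cx H) + (h (i + 1)).map (cx H) * dC Y (i + 1)) := by abel
      _ = _ := by rw [e2, e3]; abel

end

end Pool.Agent.W5h87.ZSlow
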