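import Pool.Agent.W5h87.ZSlow.Mat

/-!
# The Neumann series in the reduced group C*-algebra
-/

set_option autoImplicit false
set_option linter.unusedSectionVars false

open scoped Matrix Pointwise ENNReal NNReal

namespace Pool.Agent.W5h87.ZSlow

open Pool.Agent.H919R4.ZS Pool.Agent.TH38.ZT MonoidAlgebra

noncomputable section

variable {Γ : Type} [Group Γ]

lemma norm_row_le {n : ℕ} (W : Matrix (Fin n) (Fin n) (RedC Γ))
    (hW : ∀ a b, ‖valR (W a b)‖ ≤ 1 / (2 * (n + 1))) (z : Fin n → RedC Γ) (c : ℝ)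
    (hz : ∀ a, ‖valR (z a)‖ ≤ c) (b : Fin n) : ‖valR ((z ᵥ* W) b)‖ ≤ 1 / 2 * c := by
  have h1 : valR ((z ᵥ* W) b) = ∑ a, valR (z a) * valR (W a b) := by
    simp [Matrix.vecMul, dotProduct]
  have hc : 0 ≤ c := (norm_nonneg _).trans (hz b)
  rw [h1]
  refine (norm_sum_le _ _).trans ?_
  have h2 : ∀ a ∈ (Finset.univ : Finset (Fin n)), ‖valR (z a) * valR (W a b)‖ ≤
      c * (1 / (2 * (n + 1))) := by
    intro a _
    refine (norm_mul_le _ _).trans ?_
    exact mul_le_mul (hz a) (hW a b) (norm_nonneg _) hc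
  refine (Finset.sum_le_sum h2).trans ?_
  rw [Finset.sum_const, Finset.card_univ, Fintype.card_fin, nsmul_eq_mul]
  have hn : (0 : ℝ) < n + 1 := by positivity
  have h3 : (n : ℝ) * (c * (1 / (2 * (n + 1)))) = (1 / 2 * c) * (n / (n + 1)) := by
    field_simp
  rw [h3]
  refine mul_le_of_le_one_right (by positivity) ?_
  rw [div_le_one hn]
  linarith

/-- injectivity of `1 - W` -/
lemma neu_inj {n : ℕ} (W : Matrix (Fin n) (Fin n) (RedC Γ))
    (hW : ∀ a b, ‖valR (W a b)‖ ≤ 1 / (2 * (n + 1))) (z : Fin n → RedC Γ)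
    (hz : z - z ᵥ* W = 0) : z = 0 := by
  have hz' : z = z ᵥ* W := sub_eq_zero.1 hz
  have key : ∀ m : ℕ, ∀ a, ‖valR (z a)‖ ≤ (1 / 2) ^ m * ∑ a, ‖valR (z a)‖ := by
    intro m
    induction m with
    | zero =>
      intro a
      rw [pow_zero, one_mul]
      exact Finset.single_le_sum (f := fun a => ‖valR (z a)‖) (fun _ _ => norm_nonneg _)
        (Finset.mem_univ a)
    | succ m ih =>
      intro a
      have h1 := norm_row_le W hW z _ ih a
      rw [← hz'] at h1
      rw [pow_succ]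
      linarith
  funext a
  have h2 : ‖valR (z a)‖ ≤ 0 := by
    have ht : Filter.Tendsto (fun m : ℕ => (1 / 2 : ℝ) ^ m * ∑ a, ‖valR (z a)‖) Filter.atTop
        (nhds (0 * ∑ a, ‖valR (z a)‖)) :=
      (tendsto_pow_atTop_nhds_zero_of_lt_one (by norm_num) (by norm_num)).mul_const _
    rw [zero_mul] at ht
    exact ge_of_tendsto' ht fun m => key m a
  have h3 : valR (z a) = 0 := norm_le_zero_iff.1 h2
  refine valR_injective (h3.trans ?_)
  rw [Pi.zero_apply, map_zero]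

/-- the bounded operators which belong to the reduced group C*-algebra -/
def RSet (Γ : Type) [Group Γ] : Set (L2 Γ →L[ℂ] L2 Γ) := {T | (show Op Γ from T) ∈ redCstar Γ}

lemma isClosed_RSet : IsClosed (RSet Γ) := Subring.isClosed_topologicalClosure (groupRing Γ)

/-- from the set to the ring -/
def toR (x : RSet Γ) : RedC Γ := ⟨x.1, x.2⟩

lemma valR_toR (x : RSet Γ) : valR (toR x) = x.1 := rfl

/-- from the ring to the set -/
def ofR (x : RedC Γ) : RSet Γ := ⟨valR x, Subtype.property (p := fun y => y ∈ redCstar Γ) x⟩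

lemma toR_ofR (x : RedC Γ) : toR (ofR x) = x := rfl

lemma ofR_val (x : RedC Γ) : (ofR x : L2 Γ →L[ℂ] L2 Γ) = valR x := rfl

/-- surjectivity of `1 - W` -/
lemma neu_surj {n : ℕ} (W : Matrix (Fin n) (Fin n) (RedC Γ))
    (hW : ∀ a b, ‖valR (W a b)‖ ≤ 1 / (2 * (n + 1))) (x : Fin n → RedC Γ) :
    ∃ z : Fin n → RedC Γ, z - z ᵥ* W = x := by
  have : CompleteSpace (RSet Γ) := isClosed_RSet.completeSpace_coe
  let T : (Fin n → RSet Γ) → (Fin n → RSet Γ) := fun z b =>
    ofR (x b + ((fun a => toR (z a)) ᵥ* W) b)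
  have hT : ContractingWith (1 / 2) T := by
    refine ⟨by
      rw [← NNReal.coe_lt_coe]
      norm_num, LipschitzWith.of_dist_le_mul fun z z' => ?_⟩
    rw [dist_pi_le_iff (by positivity)]
    intro b
    have h1 : dist (T z b) (T z' b) =
        ‖valR (((fun a => toR (z a) - toR (z' a)) ᵥ* W) b)‖ := by
      rw [Subtype.dist_eq, dist_eq_norm, ofR_val, ofR_val, ← map_sub]
      congr 2
      have h2 : (fun a => toR (z a) - toR (z' a)) =
          (fun a => toR (z a)) - (fun a => toR (z' a)) := rfl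
      rw [h2, Matrix.sub_vecMul, Pi.sub_apply]
      abel
    rw [h1]
    have h3 : ((1 / 2 : ℝ≥0) : ℝ) = 1 / 2 := by norm_num
    rw [h3]
    refine norm_row_le W hW _ _ (fun a => ?_) b
    rw [map_sub, valR_toR, valR_toR]
    have h4 : dist (z a) (z' a) ≤ dist z z' := dist_le_pi_dist z z' a
    rwa [Subtype.dist_eq, dist_eq_norm] at h4
  have : Nonempty (Fin n → RSet Γ) := ⟨fun _ => ofR 0⟩
  have hfix := ContractingWith.fixedPoint_isFixedPt hT
  set z0 := ContractingWith.fixedPoint T hT with hz0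
  refine ⟨fun a => toR (z0 a), ?_⟩
  have h5 : (fun a => toR (z0 a)) = x + (fun a => toR (z0 a)) ᵥ* W := by
    funext b
    have h6 := congrArg (fun z : Fin n → RSet Γ => toR (z b)) hfix
    exact h6.symm
  rw [sub_eq_iff_eq_add]
  exact h5

/-- exactness from a contraction up to an invertible error -/
theorem exact_abs {S : Type*} [Ring S] (Y : FinRes Γ) (φ : MonoidAlgebra ℤ Γ →+* S)
    (ρ : MonoidAlgebra ℂ Γ →+* S) (hρ : ∀ a, ρ (cx Γ a) = φ a) (p : ℕ)
    (t : ∀ i, Matrix (Fin (Y.n i)) (Fin (Y.n (i + 1))) (MonoidAlgebra ℂ Γ))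
    (W : ∀ i, Matrix (Fin (Y.n i)) (Fin (Y.n i)) (MonoidAlgebra ℂ Γ))
    (h0 : t 0 * dC Y 0 = 1 - W 0)
    (h : ∀ i, dC Y i * t i + t (i + 1) * dC Y (i + 1) = 1 - W (i + 1))
    (hs : ∀ i ≤ p, ∀ x : Fin (Y.n i) → S, ∃ z, z - z ᵥ* (W i).map ρ = x)
    (hj : ∀ i ≤ p, ∀ z : Fin (Y.n i) → S, z - z ᵥ* (W i).map ρ = 0 → z = 0) :
    ∀ i ≤ p, ExAt Y φ i := by
  have hD : ∀ i, (dC Y i).map ρ = (Y.d i).map φ := by
    intro i
    refine funext fun a => funext fun b => ?_
    exact hρ _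
  have h0' : (t 0).map ρ * (Y.d 0).map φ = 1 - (W 0).map ρ := by
    have := congrArg (fun M => Matrix.map M ρ) h0
    rw [map_mul', Matrix.map_sub _ (map_sub ρ), map_one_mat, hD] at this
    exact this
  have h' : ∀ i, (Y.d i).map φ * (t i).map ρ +
      (t (i + 1)).map ρ * (Y.d (i + 1)).map φ = 1 - (W (i + 1)).map ρ := by
    intro i
    have := congrArg (fun M => Matrix.map M ρ) (h i)
    rw [Matrix.map_add _ (map_add ρ), map_mul', map_mul',
      Matrix.map_sub _ (map_sub ρ), map_one_mat, hD, hD] at this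
    exact this
  have hdd := dd Y φ
  -- the error commutes with the differential
  have hcomm : ∀ i, (1 - (W (i + 1)).map ρ) * (Y.d i).map φ =
      (Y.d i).map φ * (1 - (W i).map ρ) := by
    intro i
    have e1 : (1 - (W (i + 1)).map ρ) * (Y.d i).map φ =
        (Y.d i).map φ * (t i).map ρ * (Y.d i).map φ := by
      rw [← h' i, Matrix.add_mul, Matrix.mul_assoc ((t (i + 1)).map ρ), hdd,
        Matrix.mul_zero, add_zero]
    rw [e1]
    cases i with
    | zero => rw [← h0', Matrix.mul_assoc]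
    | succ i =>
      rw [← h' i, Matrix.mul_add, ← Matrix.mul_assoc, hdd, Matrix.zero_mul, zero_add,
        Matrix.mul_assoc]
  intro i hi
  cases i with
  | zero =>
    intro x
    obtain ⟨z, hz⟩ := hs 0 hi x
    refine ⟨z ᵥ* (t 0).map ρ, ?_⟩
    rw [Matrix.vecMul_vecMul, h0', Matrix.vecMul_sub, Matrix.vecMul_one]
    exact hz
  | succ i =>
    intro x hx
    obtain ⟨z, hz⟩ := hs (i + 1) hi x
    have hz' : z ᵥ* (1 - (W (i + 1)).map ρ) = x := by
      rw [Matrix.vecMul_sub, Matrix.vecMul_one]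
      exact hz
    have hw : z ᵥ* (Y.d i).map φ = 0 := by
      refine hj i (by omega) _ ?_
      have e2 : (z ᵥ* (Y.d i).map φ) ᵥ* (1 - (W i).map ρ) = 0 := by
        rw [Matrix.vecMul_vecMul, ← hcomm, ← Matrix.vecMul_vecMul, hz', hx]
      rwa [Matrix.vecMul_sub, Matrix.vecMul_one] at e2
    refine ⟨z ᵥ* (t (i + 1)).map ρ, ?_⟩
    have e3 : (t (i + 1)).map ρ * (Y.d (i + 1)).map φ =
        (1 - (W (i + 1)).map ρ) - (Y.d i).map φ * (t i).map ρ := by
      rw [← h' i]; abel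
    rw [Matrix.vecMul_vecMul, e3, Matrix.vecMul_sub, hz', ← Matrix.vecMul_vecMul, hw,
      Matrix.zero_vecMul, sub_zero]

/-- **exactness from a contraction up to a small error** -/
theorem exact_of_contraction (Y : FinRes Γ) (p : ℕ)
    (t : ∀ i, Matrix (Fin (Y.n i)) (Fin (Y.n (i + 1))) (MonoidAlgebra ℂ Γ))
    (W : ∀ i, Matrix (Fin (Y.n i)) (Fin (Y.n i)) (MonoidAlgebra ℂ Γ))
    (h0 : t 0 * dC Y 0 = 1 - W 0)
    (h : ∀ i, dC Y i * t i + t (i + 1) * dC Y (i + 1) = 1 - W (i + 1))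
    (hW : ∀ i ≤ p, ∀ a b, ‖Lam Γ (W i a b)‖ ≤ 1 / (2 * (Y.n i + 1))) :
    ∀ i ≤ p, ExAt Y (toRed Γ) i :=
  exact_abs Y (toRed Γ) (redL Γ) redL_cx p t W h0 h
    (fun i hi => neu_surj _ (hW i hi)) (fun i hi => neu_inj _ (hW i hi))

end

end Pool.Agent.W5h87.ZSlow
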