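import Pool.Agent.W5h87.ZSlow.Lam

/-!
# The norm of the chain map on elements of bounded support
-/

set_option autoImplicit false
set_option linter.unusedSectionVars false

open scoped Matrix Pointwise ENNReal

namespace Pool.Agent.W5h87.ZSlow

open Pool.Agent.H919R4.ZS Pool.Agent.TH38.ZT MonoidAlgebra

noncomputable section

variable {G : Type} [Group G] {H : Subgroup G}

/-- representatives of the cosets which meet a finite set -/
lemma exists_reps (H : Subgroup G) (A : Set G) (hA : A.Finite) :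
    ∃ T : Finset G, T.card ≤ cosets H A ∧ (∀ t ∈ T, t ∈ A) ∧
      (∀ t ∈ T, ∀ t' ∈ T, t * t'⁻¹ ∈ H → t = t') ∧ ∀ g ∈ A, ∃ t ∈ T, g * t⁻¹ ∈ H := by
  classical
  have hfin : (Quotient.mk (QuotientGroup.rightRel H) '' A).Finite := hA.image _
  have hch : ∀ q ∈ hfin.toFinset, ∃ a ∈ A, Quotient.mk (QuotientGroup.rightRel H) a = q := by
    intro q hq
    exact (hfin.mem_toFinset.1 hq)
  choose! r hrA hr using hch
  refine ⟨hfin.toFinset.image r, ?_, ?_, ?_, ?_⟩
  · refine Finset.card_image_le.trans ?_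
    rw [cosets, Set.ncard_eq_toFinset_card _ hfin]
  · intro t ht
    obtain ⟨q, hq, rfl⟩ := Finset.mem_image.1 ht
    exact hrA q hq
  · intro t ht t' ht' h
    obtain ⟨q, hq, rfl⟩ := Finset.mem_image.1 ht
    obtain ⟨q', hq', rfl⟩ := Finset.mem_image.1 ht'
    have h1 : Quotient.mk (QuotientGroup.rightRel H) (r q') =
        Quotient.mk (QuotientGroup.rightRel H) (r q) := by
      refine Quotient.sound ?_
      exact QuotientGroup.rightRel_apply.2 h
    rw [hr q hq, hr q' hq'] at h1
    rw [h1]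
  · intro g hg
    have hq : Quotient.mk (QuotientGroup.rightRel H) g ∈ hfin.toFinset :=
      hfin.mem_toFinset.2 ⟨g, hg, rfl⟩
    refine ⟨r _, Finset.mem_image_of_mem r hq, ?_⟩
    have h1 := hr _ hq
    exact QuotientGroup.rightRel_apply.1 (Quotient.exact h1)

lemma incC_coeff_coe (b : MonoidAlgebra ℂ H) (h : H) : (incC H b).coeff (h : G) = b.coeff h := by
  classical
  refine MonoidAlgebra.induction_linear b ?_ ?_ ?_
  · simp
  · intro x y hx hy
    rw [map_add, coeff_add, coeff_add, Finsupp.add_apply, Finsupp.add_apply, hx, hy]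
  · intro g c
    rw [incC_single, coeff_single, coeff_single]
    by_cases hg : g = h
    · subst hg
      rw [Finsupp.single_eq_same, Finsupp.single_eq_same]
    · rw [Finsupp.single_apply, Finsupp.single_apply, if_neg hg, if_neg]
      exact fun h2 => hg (Subtype.ext h2)

lemma incC_coeff_not (b : MonoidAlgebra ℂ H) {x : G} (hx : x ∉ H) : (incC H b).coeff x = 0 := by
  classical
  refine MonoidAlgebra.induction_linear b ?_ ?_ ?_
  · simp
  · intro a c ha hc
    rw [map_add, coeff_add, Finsupp.add_apply, ha, hc, add_zero]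
  · intro g c
    rw [incC_single, coeff_single, Finsupp.single_apply, if_neg]
    rintro rfl
    exact hx g.2

lemma coeff_mul_single' (a : MonoidAlgebra ℂ G) (t g : G) :
    (a * single t 1).coeff g = a.coeff (g * t⁻¹) := by
  rw [coeff_mul_single_eq_coeff_mul (g * t⁻¹) (fun m' _ => eq_mul_inv_iff_mul_eq.symm), mul_one]

/-- the decomposition of an element of the group ring along cosets -/
lemma decomp (a : MonoidAlgebra ℂ G) (A : Set G) (ha : ∀ g, a.coeff g ≠ 0 → g ∈ A) (T : Finset G)
    (hT1 : ∀ t ∈ T, ∀ t' ∈ T, t * t'⁻¹ ∈ H → t = t') (hT2 : ∀ g ∈ A, ∃ t ∈ T, g * t⁻¹ ∈ H) :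
    a = ∑ t ∈ T, incC H (cE H (a * single t⁻¹ 1)) * single t 1 := by
  classical
  ext g
  rw [coeff_sum, Finsupp.finsetSum_apply]
  have key : ∀ t ∈ T, (incC H (cE H (a * single t⁻¹ 1)) * single t 1).coeff g =
      if g * t⁻¹ ∈ H then a.coeff g else 0 := by
    intro t _
    rw [coeff_mul_single']
    split_ifs with h
    · have h1 := incC_coeff_coe (cE H (a * single t⁻¹ 1)) ⟨g * t⁻¹, h⟩
      rw [cE_coeff, coeff_mul_single'] at h1
      refine h1.trans ?_
      simp
    · exact incC_coeff_not _ h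
  rw [Finset.sum_congr rfl key]
  by_cases h0 : a.coeff g = 0
  · rw [h0]
    simp
  · obtain ⟨t, ht, htH⟩ := hT2 g (ha g h0)
    rw [Finset.sum_eq_single t, if_pos htH]
    · intro t' ht' hne
      refine if_neg fun h' => hne ?_
      refine (hT1 t ht t' ht' ?_).symm
      have h3 := H.mul_mem (H.inv_mem htH) h'
      have h4 : (g * t⁻¹)⁻¹ * (g * t'⁻¹) = t * t'⁻¹ := by group
      rwa [h4] at h3
    · intro h; exact absurd ht h

variable {X : FinRes G} {Y : FinRes H}

lemma vj_mul (v : ChainMap X Y) (i : ℕ) (j : Fin (X.n i)) (b : MonoidAlgebra ℂ H) (t : G) :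
    vj v i j (incC H b * single t 1) = fun k => b * cx H (bv v i j t k) := by
  have h1 : (Pi.single j (incC H b * single t 1) : Fin (X.n i) → MonoidAlgebra ℂ G) =
      incC H b • Pi.single j (single t 1) := by
    rw [← Pi.single_smul, smul_eq_mul]
  rw [← vC_single, h1, vC_smul, vC_single, vj_single, one_smul]
  rfl

/-- the estimate -/
theorem norm_vC_le (v : ChainMap X Y) (i : ℕ) (x : Fin (X.n i) → MonoidAlgebra ℂ G) (A : Set G)
    (hx : ∀ j g, (x j).coeff g ≠ 0 → g ∈ A) (hA : A.Finite) (N B : ℝ)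
    (hN : ∀ j, ‖Lam G (x j)‖ ≤ N) (k : Fin (Y.n i))
    (hB : ∀ g ∈ A, ∀ j, l1 (bv v i j g k) ≤ B) :
    ‖Lam H (vC v i x k)‖ ≤ X.n i * (cosets H A * (N * B)) := by
  obtain ⟨T, hT, hTA, hT1, hT2⟩ := exists_reps H A hA
  have h1 : vC v i x k = ∑ j, ∑ t ∈ T, cE H (x j * single t⁻¹ 1) * cx H (bv v i j t k) := by
    rw [vC_apply, Finset.sum_apply]
    refine Finset.sum_congr rfl fun j _ => ?_
    conv_lhs => rw [decomp (x j) A (hx j) T hT1 hT2]
    rw [map_sum, Finset.sum_apply]
    refine Finset.sum_congr rfl fun t _ => ?_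
    rw [vj_mul]
  rw [h1, map_sum]
  refine (norm_sum_le _ _).trans ?_
  have h2 : ∀ j ∈ (Finset.univ : Finset (Fin (X.n i))),
      ‖Lam H (∑ t ∈ T, cE H (x j * single t⁻¹ 1) * cx H (bv v i j t k))‖ ≤
        cosets H A * (N * B) := by
    intro j _
    rw [map_sum]
    refine (norm_sum_le _ _).trans ?_
    have h3 : ∀ t ∈ T, ‖Lam H (cE H (x j * single t⁻¹ 1) * cx H (bv v i j t k))‖ ≤ N * B := by
      intro t ht
      rw [map_mul]
      refine (norm_mul_le _ _).trans ?_
      have hN0 : 0 ≤ N := (norm_nonneg _).trans (hN j)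
      refine mul_le_mul ?_ ((norm_Lam_cx_le _).trans (hB t (hTA t ht) j)) (norm_nonneg _) hN0
      refine (norm_cE_le _).trans ?_
      rw [map_mul]
      refine (norm_mul_le _ _).trans ?_
      refine (mul_le_of_le_one_right (norm_nonneg _) ?_).trans (hN j)
      refine (norm_Lam_single _ _).trans ?_
      rw [norm_one]
    refine (Finset.sum_le_sum h3).trans ?_
    rw [Finset.sum_const, nsmul_eq_mul]
    by_cases hTe : T.card = 0
    · have hc : (0 : ℝ) ≤ cosets H A := Nat.cast_nonneg _
      rw [hTe, Nat.cast_zero, zero_mul]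
      rcases Nat.eq_zero_or_pos (cosets H A) with h5 | h5
      · rw [h5, Nat.cast_zero, zero_mul]
      · -- the set `A` is not empty
        have hne : (Quotient.mk (QuotientGroup.rightRel H) '' A).Nonempty := by
          by_contra hcon
          rw [Set.not_nonempty_iff_eq_empty] at hcon
          rw [cosets, hcon, Set.ncard_empty] at h5
          omega
        obtain ⟨_, g, hg, _⟩ := hne
        obtain ⟨t, ht, _⟩ := hT2 g hg
        have h6 := Finset.card_pos.2 ⟨t, ht⟩
        omega
    · obtain ⟨t, ht⟩ := Finset.card_pos.1 (Nat.pos_of_ne_zero hTe)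
      have h0 : 0 ≤ N * B := (norm_nonneg _).trans (h3 t ht)
      exact mul_le_mul_of_nonneg_right (by exact_mod_cast hT) h0
  refine (Finset.sum_le_sum h2).trans ?_
  rw [Finset.sum_const, Finset.card_univ, Fintype.card_fin, nsmul_eq_mul]

end

end Pool.Agent.W5h87.ZSlow
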